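import Mathlib

/-!
# Germs of group actions on vector spaces: semisimplicity
-/

set_option autoImplicit false
set_option linter.unusedSectionVars false

namespace Pool.Agent.V5helper94.TM

open Module

section germ

variable {Ω : Type} [Field Ω] {Γ : Type} [Group Γ] [TopologicalSpace Γ]
  {V V' X H : Type} [AddCommGroup V] [Module Ω V] [AddCommGroup V'] [Module Ω V']
  [AddCommGroup X] [Module Ω X] [AddCommGroup H] [Module Ω H]

/-- stable under an open subgroup -/
def Stab (a : Γ → Module.End Ω V) (W : Submodule Ω V) : Prop :=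
  ∃ U : OpenSubgroup Γ, ∀ s ∈ U, ∀ v ∈ W, a s v ∈ W

/-- semisimple -/
def SS (a : Γ → Module.End Ω V) : Prop := ∀ W, Stab a W → ∃ W', Stab a W' ∧ IsCompl W W'

/-- equivariant for an open subgroup -/
def Eqv (a : Γ → Module.End Ω V) (b : Γ → Module.End Ω V') (f : V →ₗ[Ω] V') : Prop :=
  ∃ U : OpenSubgroup Γ, ∀ s ∈ U, ∀ x, f (a s x) = b s (f x)

lemma SS.subsingleton (a : Γ → Module.End Ω V) [Subsingleton V] : SS a := by
  intro W _
  refine ⟨⊥, ⟨⊤, fun s _ v hv => ?_⟩, ?_⟩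
  · rw [Submodule.mem_bot] at hv ⊢
    exact Subsingleton.elim _ _
  · have h1 : W = ⊤ := by
      ext x
      simp only [Submodule.mem_top, iff_true]
      rw [Subsingleton.elim x 0]
      exact W.zero_mem
    rw [h1]
    exact isCompl_top_bot

lemma SS.retract {a : Γ → Module.End Ω V} {b : Γ → Module.End Ω V'} (hb : SS b)
    {f : V →ₗ[Ω] V'} (hf : Eqv a b f) (hinj : Function.Injective f) : SS a := by
  intro W hW
  obtain ⟨U, hU⟩ := hf
  obtain ⟨U1, hU1⟩ := hW
  obtain ⟨C, ⟨U2, hU2⟩, hC⟩ := hb (W.map f) ⟨U ⊓ U1, by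
    rintro s ⟨hs, hs1⟩ _ ⟨v, hv, rfl⟩
    exact ⟨a s v, hU1 s hs1 v hv, hU s hs v⟩⟩
  refine ⟨C.comap f, ⟨U ⊓ U2, ?_⟩, ?_⟩
  · rintro s ⟨hs, hs1⟩ v hv
    rw [Submodule.mem_comap] at hv ⊢
    rw [hU s hs v]
    exact hU2 s hs1 _ hv
  · constructor
    · rw [Submodule.disjoint_def]
      intro x hx hx'
      have h1 := (Submodule.disjoint_def.1 hC.disjoint) (f x) ⟨x, hx, rfl⟩ hx'
      exact hinj (by rw [h1, map_zero])
    · rw [codisjoint_iff, eq_top_iff]
      intro x _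
      have h1 : f x ∈ W.map f ⊔ C := by
        rw [hC.sup_eq_top]
        exact Submodule.mem_top
      obtain ⟨y, ⟨w, hw, rfl⟩, c, hc, h2⟩ := Submodule.mem_sup.1 h1
      refine Submodule.mem_sup.2 ⟨w, hw, x - w, ?_, by abel⟩
      rw [Submodule.mem_comap, map_sub, ← h2]
      simpa using hc

/-- direct sums: `V` and `V'` embedded in `X`, with the projection to `V'` -/
lemma SS.sum {a : Γ → Module.End Ω V} {b : Γ → Module.End Ω V'} {c : Γ → Module.End Ω X}
    (ha : SS a) (hb : SS b) {i : V →ₗ[Ω] X} {j : V' →ₗ[Ω] X} {p : X →ₗ[Ω] V} {q : X →ₗ[Ω] V'}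
    (hi : Eqv a c i) (hj : Eqv b c j) (hq : Eqv c b q)
    (h2 : ∀ x, q (j x) = x) (h3 : ∀ x, q (i x) = 0)
    (h4 : ∀ x, i (p x) + j (q x) = x) : SS c := by
  rintro W ⟨U, hU⟩
  obtain ⟨Ui, hi⟩ := hi
  obtain ⟨Uj, hj⟩ := hj
  obtain ⟨Uq, hq⟩ := hq
  obtain ⟨C1, ⟨U1, hU1⟩, hC1⟩ := ha (W.comap i) ⟨U ⊓ Ui, by
    rintro s ⟨hs, hs1⟩ v hv
    rw [Submodule.mem_comap] at hv ⊢
    rw [hi s hs1]
    exact hU s hs _ hv⟩
  obtain ⟨C2, ⟨U2, hU2⟩, hC2⟩ := hb (W.map q) ⟨U ⊓ Uq, by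
    rintro s ⟨hs, hs1⟩ _ ⟨v, hv, rfl⟩
    exact ⟨c s v, hU s hs v hv, hq s hs1 v⟩⟩
  refine ⟨C1.map i ⊔ C2.map j, ⟨(U1 ⊓ Ui) ⊓ (U2 ⊓ Uj), ?_⟩, ?_⟩
  · rintro s ⟨⟨hs1, hsi⟩, hs2, hsj⟩ v hv
    obtain ⟨_, ⟨x, hx, rfl⟩, _, ⟨y, hy, rfl⟩, rfl⟩ := Submodule.mem_sup.1 hv
    rw [map_add, ← hi s hsi, ← hj s hsj]
    exact Submodule.add_mem_sup ⟨_, hU1 s hs1 x hx, rfl⟩ ⟨_, hU2 s hs2 y hy, rfl⟩
  · constructor
    · rw [Submodule.disjoint_def]
      intro w hw hw'
      obtain ⟨_, ⟨x, hx, rfl⟩, _, ⟨y, hy, rfl⟩, hxy⟩ := Submodule.mem_sup.1 hw'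
      have h5 : q w = y := by rw [← hxy, map_add, h3, h2, zero_add]
      have h6 : y = 0 := (Submodule.disjoint_def.1 hC2.disjoint) y ⟨w, hw, h5⟩ hy
      rw [h6, map_zero, add_zero] at hxy
      have h7 : x = 0 := (Submodule.disjoint_def.1 hC1.disjoint) x
        (by rw [Submodule.mem_comap, hxy]; exact hw) hx
      rw [← hxy, h7, map_zero]
    · rw [codisjoint_iff, eq_top_iff]
      intro v _
      have h5 : q v ∈ W.map q ⊔ C2 := by
        rw [hC2.sup_eq_top]
        exact Submodule.mem_top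
      obtain ⟨_, ⟨w, hw, rfl⟩, c2, hc2, h6⟩ := Submodule.mem_sup.1 h5
      have h7 : q (v - w - j c2) = 0 := by
        rw [map_sub, map_sub, h2, ← h6]
        abel
      have h8 : i (p (v - w - j c2)) = v - w - j c2 := by
        have h9 := h4 (v - w - j c2)
        rwa [h7, map_zero, add_zero] at h9
      have h10 : p (v - w - j c2) ∈ W.comap i ⊔ C1 := by
        rw [hC1.sup_eq_top]
        exact Submodule.mem_top
      obtain ⟨x, hx, c1, hc1, h11⟩ := Submodule.mem_sup.1 h10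
      rw [← h11, map_add] at h8
      have h12 : v = (w + i x) + (i c1 + j c2) := by
        have h13 : v = (i x + i c1) + w + j c2 := by rw [h8]; abel
        rw [h13]
        abel
      rw [h12]
      refine Submodule.add_mem_sup (W.add_mem hw hx) (Submodule.add_mem_sup ⟨c1, hc1, rfl⟩
        ⟨c2, hc2, rfl⟩)

end germ

section trace

variable {Ω : Type} [Field Ω] [CharZero Ω]
  {V H : Type} [AddCommGroup V] [Module Ω V] [AddCommGroup H] [Module Ω H]
  [FiniteDimensional Ω H]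

/-- the contraction of `V ⊗ H` with a functional on `V` -/
noncomputable def ctV (φ : Dual Ω V) : TensorProduct Ω V H →ₗ[Ω] H :=
  (TensorProduct.lid Ω H).toLinearMap ∘ₗ LinearMap.rTensor H φ

/-- the contraction of `V ⊗ H` with a functional on `H` -/
noncomputable def ctH (ψ : Dual Ω H) : TensorProduct Ω V H →ₗ[Ω] V :=
  (TensorProduct.rid Ω V).toLinearMap ∘ₗ LinearMap.lTensor V ψ

lemma ctV_tmul (φ : Dual Ω V) (v : V) (y : H) : ctV φ (TensorProduct.tmul Ω v y) = φ v • y := by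
  simp [ctV]

lemma ctH_tmul (ψ : Dual Ω H) (v : V) (y : H) : ctH ψ (TensorProduct.tmul Ω v y) = ψ y • v := by
  simp [ctH]

lemma ct_comm (φ : Dual Ω V) (ψ : Dual Ω H) (x : TensorProduct Ω V H) :
    ψ (ctV φ x) = φ (ctH ψ x) := by
  induction x using TensorProduct.induction_on with
  | zero => simp
  | tmul v y =>
    rw [ctV_tmul, ctH_tmul, map_smul, map_smul, smul_eq_mul, smul_eq_mul, mul_comm]
  | add x y hx hy => rw [map_add, map_add, map_add, map_add, hx, hy]

/-- the partial trace of an operator on `V ⊗ H` -/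
noncomputable def ptr (q : Module.End Ω (TensorProduct Ω V H)) : Module.End Ω V :=
  (finrank Ω H : Ω)⁻¹ • ∑ j, (ctH ((finBasis Ω H).coord j)) ∘ₗ q ∘ₗ
    (TensorProduct.mk Ω V H).flip (finBasis Ω H j)

lemma ptr_apply (q : Module.End Ω (TensorProduct Ω V H)) (v : V) :
    ptr q v = (finrank Ω H : Ω)⁻¹ • ∑ j, ctH ((finBasis Ω H).coord j)
      (q (TensorProduct.tmul Ω v (finBasis Ω H j))) := by
  simp [ptr]

/-- the operators on `H` whose traces are the coordinates of the partial trace -/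
noncomputable def op (q : Module.End Ω (TensorProduct Ω V H)) (v : V) (φ : Dual Ω V) :
    Module.End Ω H := ctV φ ∘ₗ q ∘ₗ TensorProduct.mk Ω V H v

lemma op_apply (q : Module.End Ω (TensorProduct Ω V H)) (v : V) (φ : Dual Ω V) (y : H) :
    op q v φ y = ctV φ (q (TensorProduct.tmul Ω v y)) := rfl

lemma dual_ptr (q : Module.End Ω (TensorProduct Ω V H)) (v : V) (φ : Dual Ω V) :
    φ (ptr q v) = (finrank Ω H : Ω)⁻¹ * LinearMap.trace Ω H (op q v φ) := by
  rw [ptr_apply, map_smul, smul_eq_mul, map_sum,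
    LinearMap.trace_eq_matrix_trace Ω (finBasis Ω H), Matrix.trace]
  congr 1
  refine Finset.sum_congr rfl fun j _ => ?_
  rw [Matrix.diag_apply, LinearMap.toMatrix_apply, ← ct_comm, op_apply]
  rfl

lemma op_conj {q : Module.End Ω (TensorProduct Ω V H)} {A : Module.End Ω V} {D : Module.End Ω H}
    (h : ∀ v y, q (TensorProduct.tmul Ω (A v) (D y)) =
      TensorProduct.map A D (q (TensorProduct.tmul Ω v y))) (v : V) (φ : Dual Ω V) :
    op q (A v) φ * D = D * op q v (φ ∘ₗ A) := by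
  have key : ∀ x : TensorProduct Ω V H, ctV φ (TensorProduct.map A D x) =
      D (ctV (φ ∘ₗ A) x) := by
    intro x
    induction x using TensorProduct.induction_on with
    | zero => simp
    | tmul v y => rw [TensorProduct.map_tmul, ctV_tmul, ctV_tmul, map_smul]; rfl
    | add x y hx hy => rw [map_add, map_add, map_add, map_add, hx, hy]
  refine LinearMap.ext fun y => ?_
  rw [Module.End.mul_apply, Module.End.mul_apply, op_apply, op_apply, h, key]

lemma ptr_comm {q : Module.End Ω (TensorProduct Ω V H)} {A : Module.End Ω V}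
    {D D' : Module.End Ω H} (hD : D * D' = 1) (hD' : D' * D = 1)
    (h : ∀ v y, q (TensorProduct.tmul Ω (A v) (D y)) =
      TensorProduct.map A D (q (TensorProduct.tmul Ω v y))) (v : V) :
    ptr q (A v) = A (ptr q v) := by
  rw [← sub_eq_zero, ← Module.forall_dual_apply_eq_zero_iff Ω]
  intro φ
  rw [map_sub, sub_eq_zero]
  have h1 : φ (A (ptr q v)) = (φ ∘ₗ A) (ptr q v) := rfl
  rw [h1, dual_ptr, dual_ptr]
  congr 1
  have h2 : op q (A v) φ = D * op q v (φ ∘ₗ A) * D' := by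
    rw [← op_conj h, mul_assoc, hD, mul_one]
  rw [h2, LinearMap.trace_mul_comm, ← mul_assoc, hD', one_mul]

lemma ctH_mem {W : Submodule Ω V} (ψ : Dual Ω H) (x : TensorProduct Ω W H) :
    ctH ψ (LinearMap.rTensor H W.subtype x) ∈ W := by
  induction x using TensorProduct.induction_on with
  | zero => simp
  | tmul w y =>
    rw [LinearMap.rTensor_tmul, ctH_tmul]
    exact W.smul_mem _ w.2
  | add x y hx hy =>
    rw [map_add, map_add]
    exact W.add_mem hx hy

lemma ptr_mem {q : Module.End Ω (TensorProduct Ω V H)} {W : Submodule Ω V}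
    (h : ∀ x, q x ∈ LinearMap.range (LinearMap.rTensor H W.subtype)) (v : V) : ptr q v ∈ W := by
  rw [ptr_apply]
  refine W.smul_mem _ (W.sum_mem fun j _ => ?_)
  obtain ⟨x, hx⟩ := h (TensorProduct.tmul Ω v (finBasis Ω H j))
  rw [← hx]
  exact ctH_mem _ x

lemma ptr_id {q : Module.End Ω (TensorProduct Ω V H)} (hH : finrank Ω H ≠ 0) {v : V}
    (h : ∀ y, q (TensorProduct.tmul Ω v y) = TensorProduct.tmul Ω v y) : ptr q v = v := by
  rw [ptr_apply]
  have h1 : ∀ j, ctH ((finBasis Ω H).coord j)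
      (q (TensorProduct.tmul Ω v (finBasis Ω H j))) = v := by
    intro j
    rw [h, ctH_tmul, Basis.coord_apply, Basis.repr_self, Finsupp.single_eq_same, one_smul]
  rw [Finset.sum_congr rfl fun j _ => h1 j, Finset.sum_const, Finset.card_univ, Fintype.card_fin,
    ← Nat.cast_smul_eq_nsmul Ω, smul_smul, inv_mul_cancel₀ (by exact_mod_cast hH), one_smul]

variable {Γ : Type} [Group Γ] [TopologicalSpace Γ] {X : Type} [AddCommGroup X] [Module Ω X]

/-- If the tensor product `X` of `V` and `H` is semisimple and `H` is not zero then `V` is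
semisimple. -/
theorem SS.of_tensor {a : Γ → Module.End Ω V} {b : Γ → Module.End Ω H} {c : Γ → Module.End Ω X}
    (e : TensorProduct Ω V H ≃ₗ[Ω] X)
    (he : ∃ U : OpenSubgroup Γ, ∀ s ∈ U, ∀ x y, c s (e (TensorProduct.tmul _ x y)) =
      e (TensorProduct.tmul _ (a s x) (b s y)))
    (hb : ∃ U : OpenSubgroup Γ, b 1 = 1 ∧ ∀ s ∈ U, ∀ t ∈ U, b (s * t) = b s * b t)
    (hH : finrank Ω H ≠ 0) (hc : SS c) : SS a := by
  rintro W ⟨U, hU⟩
  obtain ⟨Ue, he⟩ := he
  obtain ⟨Ub, hb1, hb⟩ := hb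
  have hce : ∀ s ∈ Ue, ∀ x, c s (e x) = e (TensorProduct.map (a s) (b s) x) := by
    intro s hs x
    induction x using TensorProduct.induction_on with
    | zero => simp
    | tmul v y => rw [he s hs, TensorProduct.map_tmul]
    | add x y hx hy => rw [map_add, map_add, map_add, map_add, hx, hy]
  let R : Submodule Ω (TensorProduct Ω V H) := LinearMap.range (LinearMap.rTensor H W.subtype)
  have hR : ∀ s ∈ U, ∀ x ∈ R, TensorProduct.map (a s) (b s) x ∈ R := by
    rintro s hs _ ⟨x, rfl⟩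
    induction x using TensorProduct.induction_on with
    | zero => simp
    | tmul w y =>
      rw [LinearMap.rTensor_tmul, TensorProduct.map_tmul]
      exact ⟨TensorProduct.tmul Ω ⟨a s w, hU s hs w w.2⟩ (b s y), by rw [LinearMap.rTensor_tmul]; rfl⟩
    | add x y hx hy =>
      rw [map_add, map_add]
      exact R.add_mem hx hy
  have hR' : ∀ w ∈ W, ∀ y, TensorProduct.tmul Ω w y ∈ R := fun w hw y =>
    ⟨TensorProduct.tmul Ω ⟨w, hw⟩ y, by rw [LinearMap.rTensor_tmul]; rfl⟩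
  obtain ⟨C, ⟨UC, hUC⟩, hC⟩ := hc (R.map e.toLinearMap) ⟨U ⊓ Ue, by
    rintro s ⟨hs, hs1⟩ _ ⟨x, hx, rfl⟩
    refine ⟨TensorProduct.map (a s) (b s) x, hR s hs x hx, ?_⟩
    exact (hce s hs1 x).symm⟩
  let C' : Submodule Ω (TensorProduct Ω V H) := C.comap e.toLinearMap
  have hRC : IsCompl R C' := by
    constructor
    · rw [Submodule.disjoint_def]
      intro x hx hx'
      have h1 := (Submodule.disjoint_def.1 hC.disjoint) (e x) ⟨x, hx, rfl⟩ hx'
      exact e.map_eq_zero_iff.1 h1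
    · rw [codisjoint_iff, eq_top_iff]
      intro x _
      have h1 : e x ∈ R.map e.toLinearMap ⊔ C := by
        rw [hC.sup_eq_top]
        exact Submodule.mem_top
      obtain ⟨_, ⟨y, hy, rfl⟩, z, hz, h2⟩ := Submodule.mem_sup.1 h1
      refine Submodule.mem_sup.2 ⟨y, hy, x - y, ?_, by abel⟩
      change e (x - y) ∈ C
      rw [map_sub, ← h2]
      have h3 : e.toLinearMap y + z - e y = z := by
        change e y + z - e y = z
        abel
      rw [h3]
      exact hz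
  have hC' : ∀ s ∈ UC ⊓ Ue, ∀ x ∈ C', TensorProduct.map (a s) (b s) x ∈ C' := by
    rintro s ⟨hs, hs1⟩ x hx
    change e _ ∈ C
    rw [← hce s hs1]
    exact hUC s hs _ hx
  let q : Module.End Ω (TensorProduct Ω V H) := R.subtype ∘ₗ Submodule.projectionOnto R C' hRC
  have hq1 : ∀ x ∈ R, q x = x := fun x hx => by
    change ((Submodule.projectionOnto R C' hRC) x : TensorProduct Ω V H) = x
    exact congrArg Subtype.val (Submodule.projectionOnto_apply_left hRC ⟨x, hx⟩)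
  have hq2 : ∀ x ∈ C', q x = 0 := fun x hx => by
    change ((Submodule.projectionOnto R C' hRC) x : TensorProduct Ω V H) = 0
    rw [(Submodule.projectionOnto_apply_eq_zero_iff hRC).2 hx]
    rfl
  have hq3 : ∀ x, q x ∈ R := fun x => Subtype.property _
  have hq : ∀ s ∈ U ⊓ (UC ⊓ Ue), ∀ x,
      q (TensorProduct.map (a s) (b s) x) = TensorProduct.map (a s) (b s) (q x) := by
    rintro s ⟨hs, hs1⟩ x
    have h1 : x ∈ R ⊔ C' := by
      rw [hRC.sup_eq_top]
      exact Submodule.mem_top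
    obtain ⟨y, hy, z, hz, rfl⟩ := Submodule.mem_sup.1 h1
    rw [map_add, map_add, map_add, hq1 y hy, hq2 z hz, add_zero, hq1 _ (hR s hs y hy),
      hq2 _ (hC' s hs1 z hz), add_zero]
  have hcomm : ∀ s ∈ (U ⊓ (UC ⊓ Ue)) ⊓ Ub, ∀ v, ptr q (a s v) = a s (ptr q v) := by
    rintro s ⟨hs, hsb⟩ v
    have hs' : s⁻¹ ∈ Ub := Ub.inv_mem hsb
    have h1 : b s * b s⁻¹ = 1 := by rw [← hb s hsb _ hs', mul_inv_cancel, hb1]
    have h2 : b s⁻¹ * b s = 1 := by rw [← hb _ hs' s hsb, inv_mul_cancel, hb1]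
    refine ptr_comm h1 h2 (fun v y => ?_) v
    rw [← TensorProduct.map_tmul]
    exact hq s hs _
  refine ⟨LinearMap.ker (ptr q), ⟨(U ⊓ (UC ⊓ Ue)) ⊓ Ub, ?_⟩, ?_⟩
  · intro s hs v hv
    rw [LinearMap.mem_ker] at hv ⊢
    rw [hcomm s hs, hv, map_zero]
  · have hid : ∀ w ∈ W, ptr q w = w := fun w hw => ptr_id hH fun y => hq1 _ (hR' w hw y)
    constructor
    · rw [Submodule.disjoint_def]
      intro w hw hw'
      rw [LinearMap.mem_ker, hid w hw] at hw'
      exact hw'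
    · rw [codisjoint_iff, eq_top_iff]
      intro v _
      refine Submodule.mem_sup.2 ⟨ptr q v, ptr_mem hq3 v, v - ptr q v, ?_, by abel⟩
      rw [LinearMap.mem_ker, map_sub, hid _ (ptr_mem hq3 v), sub_self]

end trace

section kronecker

open Matrix

variable {Ω : Type} [Field Ω] [CharZero Ω] {Γ : Type} [Group Γ] [TopologicalSpace Γ]

lemma kronecker_mulVec {a b : ℕ} (A : Matrix (Fin a) (Fin a) Ω) (B : Matrix (Fin b) (Fin b) Ω)
    (x : Fin a → Ω) (y : Fin b → Ω) :
    (Matrix.kroneckerMap (· * ·) A B).mulVec (fun p => x p.1 * y p.2) =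
      fun p => A.mulVec x p.1 * B.mulVec y p.2 := by
  funext p
  simp only [Matrix.mulVec, dotProduct, Matrix.kroneckerMap_apply]
  rw [Finset.sum_mul_sum, Fintype.sum_prod_type]
  refine Finset.sum_congr rfl fun i _ => Finset.sum_congr rfl fun j _ => ?_
  ring

/-- the tensor product of the spaces of vectors, in coordinates -/
noncomputable def tensorEquiv (a b : ℕ) :
    TensorProduct Ω (Fin a → Ω) (Fin b → Ω) ≃ₗ[Ω] (Fin a × Fin b → Ω) :=
  ((Pi.basisFun Ω (Fin a)).tensorProduct (Pi.basisFun Ω (Fin b))).equivFun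

lemma tensorEquiv_tmul (a b : ℕ) (x : Fin a → Ω) (y : Fin b → Ω) :
    tensorEquiv a b (TensorProduct.tmul Ω x y) = fun p => x p.1 * y p.2 := by
  funext p
  obtain ⟨i, j⟩ := p
  rw [tensorEquiv, Basis.equivFun_apply, Basis.tensorProduct_repr_tmul_apply]
  simp [mul_comm]

theorem SS.of_kronecker {a b c : ℕ} {A : Γ → Matrix (Fin a) (Fin a) Ω}
    {B : Γ → Matrix (Fin b) (Fin b) Ω} {C : Γ → Matrix (Fin c) (Fin c) Ω}
    (e : Matrix (Fin c) (Fin a × Fin b) Ω) (e' : Matrix (Fin a × Fin b) (Fin c) Ω)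
    (h1 : e * e' = 1) (h2 : e' * e = 1)
    (he : ∃ U : OpenSubgroup Γ, ∀ s ∈ U, C s * e = e * Matrix.kroneckerMap (· * ·) (A s) (B s))
    (hb : ∃ U : OpenSubgroup Γ, B 1 = 1 ∧ ∀ s ∈ U, ∀ t ∈ U, B (s * t) = B s * B t)
    (hne : b ≠ 0) (hc : SS fun s => (C s).mulVecLin) : SS fun s => (A s).mulVecLin := by
  let E : (Fin a × Fin b → Ω) ≃ₗ[Ω] (Fin c → Ω) :=
    LinearEquiv.ofLinearMap e.mulVecLin e'.mulVecLin (by rw [← Matrix.mulVecLin_mul, h1]; simp)
      (by rw [← Matrix.mulVecLin_mul, h2]; simp)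
  refine SS.of_tensor (b := fun s => (B s).mulVecLin) (c := fun s => (C s).mulVecLin)
    ((tensorEquiv a b).trans E) ?_ ?_ ?_ hc
  · obtain ⟨U, hU⟩ := he
    refine ⟨U, fun s hs x y => ?_⟩
    rw [LinearEquiv.trans_apply, LinearEquiv.trans_apply, tensorEquiv_tmul, tensorEquiv_tmul]
    change (C s).mulVec (e.mulVec _) = e.mulVec _
    rw [Matrix.mulVec_mulVec, hU s hs, ← Matrix.mulVec_mulVec, kronecker_mulVec]
    rfl
  · obtain ⟨U, h3, h4⟩ := hb
    refine ⟨U, ?_, fun s hs t ht => ?_⟩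
    · rw [h3]
      exact Matrix.mulVecLin_one
    · rw [h4 s hs t ht]
      exact Matrix.mulVecLin_mul _ _
  · rw [Module.finrank_fin_fun]
    exact hne

end kronecker

end Pool.Agent.V5helper94.TM
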