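import Pool.Agent.V5helper94.TM.Defs
import Pool.Agent.V5helper94.TM.Germ

/-!
# Generated tensor categories, direct sums and direct summands
-/

set_option autoImplicit false
set_option linter.unusedSectionVars false

open CategoryTheory CategoryTheory.Limits AlgebraicGeometry MonoidalCategory
  Pool.Agent.Y116.UV Pool.Agent.V5helper77.GW

open scoped ZeroObject

namespace Pool.Agent.V5helper94.TM

section objects

variable {C : Type 1} [Category.{0} C]

lemma Summand.refl (M : C) : Summand M M := ⟨𝟙 M, 𝟙 M, Category.id_comp _⟩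

lemma Summand.of_iso {M N : C} (e : Nonempty (M ≅ N)) : Summand M N :=
  ⟨e.some.hom, e.some.inv, e.some.hom_inv_id⟩

lemma Summand.of_iso' {M N : C} (e : Nonempty (N ≅ M)) : Summand M N :=
  ⟨e.some.inv, e.some.hom, e.some.inv_hom_id⟩

lemma Summand.trans {M N P : C} (h : Summand M N) (h' : Summand N P) : Summand M P := by
  obtain ⟨i, r, h1⟩ := h
  obtain ⟨j, s, h2⟩ := h'
  exact ⟨i ≫ j, s ≫ r, by rw [Category.assoc, ← Category.assoc j, h2, Category.id_comp, h1]⟩

lemma Summand.map {D : Type 1} [Category.{0} D] (F : C ⥤ D) {M N : C} (h : Summand M N) :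
    Summand (F.obj M) (F.obj N) := by
  obtain ⟨i, r, h1⟩ := h
  exact ⟨F.map i, F.map r, by rw [← F.map_comp, h1, F.map_id]⟩

section tensor

variable [MonoidalCategory C]

lemma Summand.tensor {M N M' N' : C} (h : Summand M N) (h' : Summand M' N') :
    Summand (M ⊗ M') (N ⊗ N') := by
  obtain ⟨i, r, h1⟩ := h
  obtain ⟨j, s, h2⟩ := h'
  refine ⟨i ⊗ₘ j, r ⊗ₘ s, ?_⟩
  rw [MonoidalCategory.tensorHom_comp_tensorHom, h1, h2, MonoidalCategory.id_tensorHom_id]

end tensor

variable [Abelian C]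

lemma Summand.inl (M N : C) : Summand M (M ⊞ N) := ⟨biprod.inl, biprod.fst, biprod.inl_fst⟩

lemma Summand.inr (M N : C) : Summand N (M ⊞ N) := ⟨biprod.inr, biprod.snd, biprod.inr_snd⟩

lemma Summand.of_isZero {M N : C} (h : IsZero M) : Summand M N := ⟨0, 0, h.eq_of_src _ _⟩

lemma Summand.sum {M N M' N' : C} (h : Summand M N) (h' : Summand M' N') :
    Summand (M ⊞ M') (N ⊞ N') := by
  obtain ⟨i, r, h1⟩ := h
  obtain ⟨j, s, h2⟩ := h'
  refine ⟨biprod.map i j, biprod.map r s, ?_⟩
  apply biprod.hom_ext' <;> apply biprod.hom_ext <;> simp [h1, h2]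

/-- an additive functor and direct sums -/
lemma summand_map_sum {D : Type 1} [Category.{0} D] [Abelian D] (F : C ⥤ D) [F.Additive] (M N : C) :
    Summand (F.obj (M ⊞ N)) (F.obj M ⊞ F.obj N) := by
  refine ⟨biprod.lift (F.map biprod.fst) (F.map biprod.snd),
    biprod.desc (F.map biprod.inl) (F.map biprod.inr), ?_⟩
  rw [biprod.lift_desc, ← F.map_comp, ← F.map_comp, ← F.map_add, biprod.total, F.map_id]

lemma summand_sum_map {D : Type 1} [Category.{0} D] [Abelian D] (F : C ⥤ D) [F.Additive] (M N : C) :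
    Summand (F.obj M ⊞ F.obj N) (F.obj (M ⊞ N)) := by
  refine ⟨biprod.desc (F.map biprod.inl) (F.map biprod.inr),
    biprod.lift (F.map biprod.fst) (F.map biprod.snd), ?_⟩
  apply biprod.hom_ext' <;> apply biprod.hom_ext
  · simp [← F.map_comp]
  · simp [← F.map_comp]
  · simp [← F.map_comp]
  · simp [← F.map_comp]

section tens

variable [MonoidalCategory C] {L : ℤ → C} {P Q : C → Prop}

lemma Tens.trans {M : C} (hM : Tens L P M) (h : ∀ M, P M → Tens L Q M) : Tens L Q M := by
  induction hM with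
  | of h' => exact h _ h'
  | tate r => exact .tate r
  | zero h' => exact .zero h'
  | retract h' _ ih => exact .retract h' ih
  | sum _ _ ih1 ih2 => exact .sum ih1 ih2
  | tensor _ _ ih1 ih2 => exact .tensor ih1 ih2

lemma Tens.one {M M' : C} (h : Summand M M') {N : C} (hN : Tens L (fun x => x = M) N) :
    Tens L (fun x => x = M') N :=
  hN.trans fun x hx => by
    subst hx
    exact .retract h (.of rfl)

/-- Every object of a generated tensor category is in the tensor category generated by a finite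
direct sum. -/
lemma Tens.finite {M : C} (hM : Tens L P M) : ∃ N, Sums P N ∧ Tens L (fun x => x = N) M := by
  have key : ∀ {N N' : C}, Sums P N → Sums P N' → Sums P (N ⊞ N') := fun h h' => .sum h h'
  induction hM with
  | of h' => exact ⟨_, .of h', .of rfl⟩
  | tate r => exact ⟨0, .zero (isZero_zero C), .tate r⟩
  | zero h' => exact ⟨0, .zero (isZero_zero C), .zero h'⟩
  | retract h' _ ih =>
    obtain ⟨N, hN, h1⟩ := ih
    exact ⟨N, hN, .retract h' h1⟩
  | sum _ _ ih1 ih2 =>
    obtain ⟨N, hN, h1⟩ := ih1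
    obtain ⟨N', hN', h1'⟩ := ih2
    exact ⟨N ⊞ N', .sum hN hN', .sum (Tens.one (.inl _ _) h1) (Tens.one (.inr _ _) h1')⟩
  | tensor _ _ ih1 ih2 =>
    obtain ⟨N, hN, h1⟩ := ih1
    obtain ⟨N', hN', h1'⟩ := ih2
    exact ⟨N ⊞ N', .sum hN hN', .tensor (Tens.one (.inl _ _) h1) (Tens.one (.inr _ _) h1')⟩

lemma Sums.tens {M : C} (h : Sums P M) : Tens L P M := by
  induction h with
  | zero h' => exact .zero h'
  | of h' => exact .of h'
  | sum _ _ ih1 ih2 => exact .sum ih1 ih2

end tens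

end objects

section realization

variable {k K : Type} [Field k] [Field K] {ℓ : ℕ} [Fact ℓ.Prime] {T : Motives k K ℓ}

/-- the `ℓ`-adic realization -/
abbrev F (T : Motives k K ℓ) (M : T.C) : Type := Fin (T.d M) → ℚ_[ℓ]

/-- the linear map given by a morphism -/
noncomputable def mapF {M N : T.C} (f : M ⟶ N) : F T M →ₗ[ℚ_[ℓ]] F T N := (T.matF f).mulVecLin

/-- the Galois action -/
noncomputable def gal (T : Motives k K ℓ) (M : T.C) (s : T.Γ) : Module.End ℚ_[ℓ] (F T M) :=
  (T.galois M s).mulVecLin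

lemma gal_apply (M : T.C) (s : T.Γ) (x : F T M) : gal T M s x = (T.galois M s).mulVec x := rfl

variable (hT : IsTheory T)

include hT

lemma matF_comp {M N P : T.C} (f : M ⟶ N) (g : N ⟶ P) : T.matF (f ≫ g) = T.matF g * T.matF f := by
  unfold Motives.matF
  rw [hT.mat_comp]
  exact Matrix.map_mul (f := Rat.castHom ℚ_[ℓ])

lemma matF_id (M : T.C) : T.matF (𝟙 M) = 1 := by
  unfold Motives.matF
  rw [hT.mat_id]
  exact Matrix.map_one _ (Rat.cast_zero) (Rat.cast_one)

lemma matF_add {M N : T.C} (f g : M ⟶ N) : T.matF (f + g) = T.matF f + T.matF g := by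
  unfold Motives.matF
  rw [hT.mat_add]
  exact Matrix.map_add _ (fun a b => Rat.cast_add a b) _ _

lemma matR_comp {M N P : T.C} (f : M ⟶ N) (g : N ⟶ P) : T.matR (f ≫ g) = T.matR g * T.matR f := by
  unfold Motives.matR
  rw [hT.mat_comp]
  exact Matrix.map_mul (f := Rat.castHom ℝ)

lemma matR_id (M : T.C) : T.matR (𝟙 M) = 1 := by
  unfold Motives.matR
  rw [hT.mat_id]
  exact Matrix.map_one _ (Rat.cast_zero) (Rat.cast_one)

lemma matR_add {M N : T.C} (f g : M ⟶ N) : T.matR (f + g) = T.matR f + T.matR g := by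
  unfold Motives.matR
  rw [hT.mat_add]
  exact Matrix.map_add _ (fun a b => Rat.cast_add a b) _ _

lemma mapF_comp {M N P : T.C} (f : M ⟶ N) (g : N ⟶ P) (x : F T M) :
    mapF (f ≫ g) x = mapF g (mapF f x) := by
  change (T.matF (f ≫ g)).mulVec x = (T.matF g).mulVec ((T.matF f).mulVec x)
  rw [matF_comp hT, Matrix.mulVec_mulVec]

lemma mapF_id (M : T.C) (x : F T M) : mapF (𝟙 M) x = x := by
  change (T.matF (𝟙 M)).mulVec x = x
  rw [matF_id hT, Matrix.one_mulVec]

lemma mapF_add {M N : T.C} (f g : M ⟶ N) (x : F T M) :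
    mapF (f + g) x = mapF f x + mapF g x := by
  change (T.matF (f + g)).mulVec x = (T.matF f).mulVec x + (T.matF g).mulVec x
  rw [matF_add hT, Matrix.add_mulVec]

lemma mapF_zero {M N : T.C} (x : F T M) : mapF (0 : M ⟶ N) x = 0 := by
  have h := mapF_add hT (0 : M ⟶ N) 0 x
  rw [add_zero] at h
  exact left_eq_add.1 h

lemma mapF_leftInverse {M N : T.C} {i : M ⟶ N} {r : N ⟶ M} (h : i ≫ r = 𝟙 M) (x : F T M) :
    mapF r (mapF i x) = x := by
  rw [← mapF_comp hT, h, mapF_id hT]

lemma eqv {M N : T.C} (f : M ⟶ N) : Eqv (gal T M) (gal T N) (mapF f) := by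
  obtain ⟨U, hU⟩ := hT.galois_map f
  refine ⟨U, fun s hs x => ?_⟩
  change (T.matF f).mulVec ((T.galois M s).mulVec x) = (T.galois N s).mulVec ((T.matF f).mulVec x)
  rw [Matrix.mulVec_mulVec, Matrix.mulVec_mulVec, hU s hs]

lemma IsTheory.subsingleton {M : T.C} (h : IsZero M) : Subsingleton (F T M) := by
  refine ⟨fun x y => ?_⟩
  have h1 : 𝟙 M = 0 := h.eq_of_src _ _
  rw [← mapF_id hT M x, ← mapF_id hT M y, h1, mapF_zero hT, mapF_zero hT]

omit hT in
lemma semisimple_iff (M : T.C) : T.Semisimple M ↔ SS (gal T M) := Iff.rfl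

lemma IsTheory.ss_zero {M : T.C} (h : IsZero M) : T.Semisimple M := by
  have := hT.subsingleton h
  exact (semisimple_iff M).2 (SS.subsingleton _)

lemma IsTheory.ss_retract {M N : T.C} (h : Summand M N) (hN : T.Semisimple N) :
    T.Semisimple M := by
  obtain ⟨i, r, h1⟩ := h
  exact (semisimple_iff M).2 (SS.retract ((semisimple_iff N).1 hN) (eqv hT i) fun x y hxy => by
    rw [← mapF_leftInverse hT h1 x, hxy, mapF_leftInverse hT h1])

lemma IsTheory.ss_sum {M N : T.C} (hM : T.Semisimple M) (hN : T.Semisimple N) :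
    T.Semisimple (M ⊞ N) := by
  refine (semisimple_iff _).2 (SS.sum (p := mapF biprod.fst) (q := mapF biprod.snd)
    ((semisimple_iff M).1 hM) ((semisimple_iff N).1 hN) (eqv hT biprod.inl)
    (eqv hT biprod.inr) (eqv hT biprod.snd) (mapF_leftInverse hT biprod.inr_snd) (fun x => ?_)
    fun x => ?_)
  · rw [← mapF_comp hT, biprod.inl_snd, mapF_zero hT]
  · rw [← mapF_comp hT, ← mapF_comp hT, ← mapF_add hT, biprod.total, mapF_id hT]

lemma IsTheory.tate_map {M N : T.C} (f : M ⟶ N) {v : F T M} (h : T.IsTate M v) :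
    T.IsTate N (mapF f v) := by
  obtain ⟨U, hU⟩ := h
  obtain ⟨U', hU'⟩ := eqv hT f
  refine ⟨U ⊓ U', fun s hs => ?_⟩
  have h1 := hU' s hs.2 v
  rw [gal_apply, hU s hs.1] at h1
  exact h1.symm

omit hT in
lemma tate_add' {M : T.C} {v w : F T M} (h : T.IsTate M v) (h' : T.IsTate M w) :
    T.IsTate M (v + w) := by
  obtain ⟨U, hU⟩ := h
  obtain ⟨U', hU'⟩ := h'
  exact ⟨U ⊓ U', fun s hs => by rw [Matrix.mulVec_add, hU s hs.1, hU' s hs.2]⟩

lemma IsTheory.hodge_map' {M N : T.C} (f : M ⟶ N) {u : Fin (T.d M) → ℚ} (h : T.IsHodge M u) :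
    T.IsHodge N ((T.mat f).mulVec u) := by
  have hc : (fun i => (((T.mat f).mulVec u i : ℚ) : ℝ)) =
      (T.matR f).mulVec fun i => (u i : ℝ) := by
    funext i
    simp [Matrix.mulVec, dotProduct, Motives.matR]
  intro z
  rw [hc, Matrix.mulVec_mulVec, ← hT.hodge_map f z, ← Matrix.mulVec_mulVec, h z]

lemma IsTheory.hspan_map {M N : T.C} (f : M ⟶ N) {v : F T M} (h : v ∈ T.HodgeSpan M) :
    mapF f v ∈ T.HodgeSpan N := by
  induction h using Submodule.span_induction with
  | mem x hx =>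
    obtain ⟨u, hu, rfl⟩ := hx
    refine Submodule.subset_span ⟨_, hT.hodge_map' f hu, ?_⟩
    funext i
    simp [mapF, Matrix.mulVec, dotProduct, Motives.matF]
  | zero => rw [map_zero]; exact Submodule.zero_mem _
  | add x y _ _ hx hy => rw [map_add]; exact Submodule.add_mem _ hx hy
  | smul c x _ hx => rw [map_smul]; exact Submodule.smul_mem _ _ hx

lemma IsTheory.th_retract {M N : T.C} (h : Summand M N) (hN : T.TateIsHodge N) :
    T.TateIsHodge M := by
  obtain ⟨i, r, h1⟩ := h
  intro v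
  constructor
  · intro hv
    rw [← mapF_leftInverse hT h1 v]
    exact hT.hspan_map r ((hN _).1 (hT.tate_map i hv))
  · intro hv
    rw [← mapF_leftInverse hT h1 v]
    exact hT.tate_map r ((hN _).2 (hT.hspan_map i hv))

lemma IsTheory.th_sum {M N : T.C} (hM : T.TateIsHodge M) (hN : T.TateIsHodge N) :
    T.TateIsHodge (M ⊞ N) := by
  have h1 : ∀ v : F T (M ⊞ N), v = mapF biprod.inl (mapF (biprod.fst : M ⊞ N ⟶ M) v) +
      mapF biprod.inr (mapF (biprod.snd : M ⊞ N ⟶ N) v) := by
    intro v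
    rw [← mapF_comp hT, ← mapF_comp hT, ← mapF_add hT, biprod.total, mapF_id hT]
  intro v
  constructor
  · intro hv
    rw [h1 v]
    exact Submodule.add_mem _ (hT.hspan_map _ ((hM _).1 (hT.tate_map _ hv)))
      (hT.hspan_map _ ((hN _).1 (hT.tate_map _ hv)))
  · intro hv
    rw [h1 v]
    exact tate_add' (hT.tate_map _ ((hM _).2 (hT.hspan_map _ hv)))
      (hT.tate_map _ ((hN _).2 (hT.hspan_map _ hv)))

end realization

end Pool.Agent.V5helper94.TM
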