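import Pool.Agent.V5helper94.TM.Parity

/-!
# From the second cohomology to the tensor category generated by the first and second cohomology
-/

set_option autoImplicit false
set_option linter.unusedSectionVars false

open CategoryTheory CategoryTheory.Limits AlgebraicGeometry MonoidalCategory
  Pool.Agent.Y116.UV Pool.Agent.V5helper77.GW

open scoped ZeroObject

namespace Pool.Agent.V5helper94.TM

variable {k K : Type} [Field k] [Field K] {ℓ : ℕ} [Fact ℓ.Prime] {T : Motives k K ℓ}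

lemma ft_of_smProj {k : Type} [Field k] {X : Sch k} (hX : IsSmProj X) : FT True X := by
  have hp := hX.proper
  exact ⟨inferInstance, inferInstance, fun _ => inferInstance⟩

/-- in the tensor category generated by some `H^2(Z)` -/
def Ev (T : Motives k K ℓ) (N : T.C) : Prop :=
  ∃ Z, IsSmProj Z ∧ Tens T.L (fun M => M = T.H 2 Z) N

/-- direct summands of `E ⊗ H^1(X)` -/
def Od (T : Motives k K ℓ) (N : T.C) : Prop :=
  ∃ (E : T.C) (X : Sch K), Ev T E ∧ IsSmProj X ∧ Summand N (E ⊗ T.H 1 X)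

/-- direct summands of sums of such objects -/
def Mix (T : Motives k K ℓ) (N : T.C) : Prop :=
  ∃ E O : T.C, Ev T E ∧ Od T O ∧ Summand N (E ⊞ O)

variable (hT : IsTheory T)

include hT

lemma h2_left {X Y : Sch K} (hX : IsSmProj X) (hY : IsSmProj Y) :
    Summand (T.H 2 X) (T.H 2 (X ⊗ Y)) :=
  ((Summand.inl _ _).trans (Summand.inl _ _)).trans (Summand.of_iso' (hT.kunneth_two X Y hX hY))

lemma h2_right {X Y : Sch K} (hX : IsSmProj X) (hY : IsSmProj Y) :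
    Summand (T.H 2 Y) (T.H 2 (X ⊗ Y)) :=
  ((Summand.inr _ _).trans (Summand.inl _ _)).trans (Summand.of_iso' (hT.kunneth_two X Y hX hY))

lemma h2_sum {X Y : Sch K} (hX : IsSmProj X) (hY : IsSmProj Y) :
    Summand (T.H 2 X ⊞ T.H 2 Y) (T.H 2 (X ⊗ Y)) :=
  (Summand.inl _ _).trans (Summand.of_iso' (hT.kunneth_two X Y hX hY))

lemma h2_mid {X Y : Sch K} (hX : IsSmProj X) (hY : IsSmProj Y) :
    Summand (T.H 1 X ⊗ T.H 1 Y) (T.H 2 (X ⊗ Y)) :=
  (Summand.inr _ _).trans (Summand.of_iso' (hT.kunneth_two X Y hX hY))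

lemma h1_sum {X Y : Sch K} (hX : IsSmProj X) (hY : IsSmProj Y) :
    Summand (T.H 1 X ⊞ T.H 1 Y) (T.H 1 (X ⊗ Y)) :=
  Summand.of_iso' (hT.kunneth_one X Y hX hY)

lemma h1_left {X Y : Sch K} (hX : IsSmProj X) (hY : IsSmProj Y) :
    Summand (T.H 1 X) (T.H 1 (X ⊗ Y)) :=
  (Summand.inl _ _).trans (h1_sum hT hX hY)

lemma h1_right {X Y : Sch K} (hX : IsSmProj X) (hY : IsSmProj Y) :
    Summand (T.H 1 Y) (T.H 1 (X ⊗ Y)) :=
  (Summand.inr _ _).trans (h1_sum hT hX hY)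

lemma ev_common {N N' : T.C} (h : Ev T N) (h' : Ev T N') : ∃ Z, IsSmProj Z ∧
    Tens T.L (fun M => M = T.H 2 Z) N ∧ Tens T.L (fun M => M = T.H 2 Z) N' := by
  obtain ⟨Z, hZ, h1⟩ := h
  obtain ⟨Z', hZ', h1'⟩ := h'
  exact ⟨Z ⊗ Z', hT.product Z Z' hZ hZ', Tens.one (h2_left hT hZ hZ') h1,
    Tens.one (h2_right hT hZ hZ') h1'⟩

lemma ev_sum {N N' : T.C} (h : Ev T N) (h' : Ev T N') : Ev T (N ⊞ N') := by
  obtain ⟨Z, hZ, h1, h2⟩ := ev_common hT h h'
  exact ⟨Z, hZ, .sum h1 h2⟩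

lemma ev_tensor {N N' : T.C} (h : Ev T N) (h' : Ev T N') : Ev T (N ⊗ N') := by
  obtain ⟨Z, hZ, h1, h2⟩ := ev_common hT h h'
  exact ⟨Z, hZ, .tensor h1 h2⟩

omit hT in
lemma ev_retract {N N' : T.C} (h : Summand N N') (h' : Ev T N') : Ev T N := by
  obtain ⟨Z, hZ, h1⟩ := h'
  exact ⟨Z, hZ, .retract h h1⟩

omit hT in
lemma ev_h2 {X : Sch K} (hX : IsSmProj X) : Ev T (T.H 2 X) := ⟨X, hX, .of rfl⟩

lemma ev_h11 {X Y : Sch K} (hX : IsSmProj X) (hY : IsSmProj Y) : Ev T (T.H 1 X ⊗ T.H 1 Y) :=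
  ⟨X ⊗ Y, hT.product X Y hX hY, .retract (h2_mid hT hX hY) (.of rfl)⟩

omit hT in
lemma od_retract {N N' : T.C} (h : Summand N N') (h' : Od T N') : Od T N := by
  obtain ⟨E, X, hE, hX, h1⟩ := h'
  exact ⟨E, X, hE, hX, h.trans h1⟩

lemma od_sum {N N' : T.C} (h : Od T N) (h' : Od T N') : Od T (N ⊞ N') := by
  have := hT.bilinear
  obtain ⟨E, X, hE, hX, h1⟩ := h
  obtain ⟨E', X', hE', hX', h1'⟩ := h'
  refine ⟨E ⊞ E', X ⊗ X', ev_sum hT hE hE', hT.product X X' hX hX', ?_⟩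
  have h2 : Summand N (E ⊗ T.H 1 (X ⊗ X')) :=
    h1.trans (Summand.tensor (Summand.refl _) (h1_left hT hX hX'))
  have h3 : Summand N' (E' ⊗ T.H 1 (X ⊗ X')) :=
    h1'.trans (Summand.tensor (Summand.refl _) (h1_right hT hX hX'))
  exact (Summand.sum h2 h3).trans (summand_sum_map (tensorRight (T.H 1 (X ⊗ X'))) E E')

lemma od_ev {E N : T.C} (hE : Ev T E) (h : Od T N) : Od T (E ⊗ N) := by
  obtain ⟨E', X, hE', hX, h1⟩ := h
  exact ⟨E ⊗ E', X, ev_tensor hT hE hE', hX,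
    (Summand.tensor (Summand.refl E) h1).trans (Summand.of_iso ⟨(α_ _ _ _).symm⟩)⟩

lemma ev_od {E N : T.C} (hE : Ev T E) (h : Od T N) : Od T (N ⊗ E) :=
  od_retract (Summand.of_iso ⟨β_ N E⟩) (od_ev hT hE h)

lemma od_od {N N' : T.C} (h : Od T N) (h' : Od T N') : Ev T (N ⊗ N') := by
  obtain ⟨E, X, hE, hX, h1⟩ := h
  obtain ⟨E', X', hE', hX', h1'⟩ := h'
  refine ev_retract (Summand.tensor h1 h1') ?_
  refine ev_retract (N' := (E ⊗ E') ⊗ (T.H 1 X ⊗ T.H 1 X')) ?_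
    (ev_tensor hT (ev_tensor hT hE hE') (ev_h11 hT hX hX'))
  exact ⟨tensorμ _ _ _ _, tensorδ _ _ _ _, tensorμ_tensorδ _ _ _ _⟩

omit hT in
lemma mix_retract {N N' : T.C} (h : Summand N N') (h' : Mix T N') : Mix T N := by
  obtain ⟨E, O, hE, hO, h1⟩ := h'
  exact ⟨E, O, hE, hO, h.trans h1⟩

omit hT in
lemma mix_ev {E : T.C} (h : Ev T E) : Mix T E := by
  obtain ⟨Z, hZ, h1⟩ := h
  exact ⟨E, 0, ⟨Z, hZ, h1⟩, ⟨E, Z, ⟨Z, hZ, h1⟩, hZ, Summand.of_isZero (isZero_zero _)⟩,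
    Summand.inl _ _⟩

omit hT in
lemma mix_od {O : T.C} (h : Od T O) : Mix T O := by
  obtain ⟨E, X, hE, hX, h1⟩ := h
  exact ⟨E, O, hE, ⟨E, X, hE, hX, h1⟩, Summand.inr _ _⟩

lemma mix_sum {N N' : T.C} (h : Mix T N) (h' : Mix T N') : Mix T (N ⊞ N') := by
  obtain ⟨E, O, hE, hO, h1⟩ := h
  obtain ⟨E', O', hE', hO', h1'⟩ := h'
  refine ⟨E ⊞ E', O ⊞ O', ev_sum hT hE hE', od_sum hT hO hO', (Summand.sum h1 h1').trans ?_⟩
  refine ⟨biprod.desc (biprod.map biprod.inl biprod.inl) (biprod.map biprod.inr biprod.inr),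
    biprod.desc (biprod.map biprod.inl biprod.inl) (biprod.map biprod.inr biprod.inr), ?_⟩
  apply biprod.hom_ext' <;> apply biprod.hom_ext' <;> simp

lemma mix_tensor {N N' : T.C} (h : Mix T N) (h' : Mix T N') : Mix T (N ⊗ N') := by
  have := hT.bilinear
  obtain ⟨E, O, hE, hO, h1⟩ := h
  obtain ⟨E', O', hE', hO', h1'⟩ := h'
  refine mix_retract ((Summand.tensor h1 h1').trans
    (summand_map_sum (tensorRight (E' ⊞ O')) E O)) ?_
  refine mix_sum hT ?_ ?_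
  · exact mix_retract (summand_map_sum (tensorLeft E) E' O')
      (mix_sum hT (mix_ev (ev_tensor hT hE hE')) (mix_od (od_ev hT hE hO')))
  · exact mix_retract (summand_map_sum (tensorLeft O) E' O')
      (mix_sum hT (mix_od (ev_od hT hE' hO)) (mix_ev (od_od hT hO hO')))

lemma mix_tens {Z : Sch K} (hZ : IsSmProj Z) {P : T.C → Prop} (hP : ∀ M, P M → Mix T M) {N : T.C}
    (h : Tens T.L P N) : Mix T N := by
  induction h with
  | of h' => exact hP _ h'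
  | tate r => exact mix_ev ⟨Z, hZ, .tate r⟩
  | zero h' => exact mix_ev ⟨Z, hZ, .zero h'⟩
  | retract h' _ ih => exact mix_retract h' ih
  | sum _ _ ih1 ih2 => exact mix_sum hT ih1 ih2
  | tensor _ _ ih1 ih2 => exact mix_tensor hT ih1 ih2

lemma sgn_ev {E : T.C} (h : Ev T E) : Sgn T 1 E := by
  obtain ⟨Z, hZ, h1⟩ := h
  refine sgn_tens hT ?_ h1
  rintro _ rfl
  have h2 := sgn_h hT hZ 2
  norm_num at h2
  exact h2

lemma sgn_h1 {X : Sch K} (hX : IsSmProj X) : Sgn T (-1) (T.H 1 X) := by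
  have h2 := sgn_h hT hX 1
  norm_num at h2
  exact h2

/-- **The motives generated by the first and second cohomology.** -/
theorem mix_good (hM : ∀ X, IsSmProj X → T.MumfordTate (T.H 2 X)) {N : T.C} (h : Mix T N) :
    T.Semisimple N ∧ T.TateIsHodge N := by
  have hev : ∀ E, Ev T E → T.Semisimple E ∧ T.TateIsHodge E := by
    rintro E ⟨Z, hZ, h1⟩
    exact hM Z hZ E h1
  have hod : ∀ O, Od T O → T.Semisimple O ∧ T.TateIsHodge O := by
    rintro O ⟨E, X, hE, hX, h1⟩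
    refine ⟨hT.ss_retract h1 ?_, hT.th_retract h1 ?_⟩
    · by_cases h0 : T.d (T.H 1 X) = 0
      · obtain ⟨e, e', h2, h3, -⟩ := hT.galois_tensor E (T.H 1 X)
        have h4 : IsEmpty (Fin (T.d E) × Fin (T.d (T.H 1 X))) := by
          rw [h0]
          infer_instance
        have h5 : Subsingleton (F T (E ⊗ T.H 1 X)) := by
          refine ⟨fun x y => ?_⟩
          have h6 : ∀ x : F T (E ⊗ T.H 1 X), x = 0 := by
            intro x
            rw [← Matrix.one_mulVec x, ← h2, ← Matrix.mulVec_mulVec,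
              Subsingleton.elim (e'.mulVec x) 0, Matrix.mulVec_zero]
          rw [h6 x, h6 y]
        exact (semisimple_iff _).2 (SS.subsingleton _)
      · have h2 : Ev T ((E ⊗ T.H 1 X) ⊗ T.H 1 X) :=
          ev_retract (Summand.of_iso ⟨α_ _ _ _⟩) (ev_tensor hT hE (ev_h11 hT hX hX))
        obtain ⟨e, e', h3, h4, h5⟩ := hT.galois_tensor (E ⊗ T.H 1 X) (T.H 1 X)
        exact (semisimple_iff _).2 (SS.of_kronecker e e' h3 h4 h5 (hT.germ (T.H 1 X)) h0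
          ((semisimple_iff _).1 (hev _ h2).1))
    · have h2 := sgn_tensor hT (sgn_ev hT hE) (sgn_h1 hT hX)
      rw [one_mul] at h2
      exact th_odd hT h2
  obtain ⟨E, O, hE, hO, h1⟩ := h
  exact ⟨hT.ss_retract h1 (hT.ss_sum (hev E hE).1 (hod O hO).1),
    hT.th_retract h1 (hT.th_sum (hev E hE).2 (hod O hO).2)⟩

end Pool.Agent.V5helper94.TM
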