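import Pool.Agent.V5helper77.GW.Wt

/-!
# Motives over an algebraically closed field and the Mumford-Tate conjecture: definitions
-/

set_option autoImplicit false

open CategoryTheory CategoryTheory.Limits AlgebraicGeometry MonoidalCategory
  Pool.Agent.Y116.UV Pool.Agent.V5helper77.GW

namespace Pool.Agent.V5helper94.TM

/-- Data for motives over an algebraic closure `K` of a finitely generated field, with a fixed
embedding of `K` in `ℂ`. The field `k` is a subfield of `K` over which `K` is algebraic (for
instance `k` is finitely generated, or `k = K`).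

* `C` is the tensor category of motives (of André) over `K`;
* `V w n X = Gr^W_w H^n_c(X_K)` for the schemes `X` over `k`;
* `H n X = H^n(X)` for the smooth projective varieties `X` over `K`;
* `L r = ℚ(-r)` are the Tate motives;
* the Betti realization: for every motive `M` a basis of the vector space `B M` over `ℚ` is chosen, `d M`
  is the number of its elements, and `mat f` is the matrix of a morphism `f`;
* the Hodge structure on `B M` is given by the action of the Deligne torus on `ℝ ⊗ B M`: `hodge M z` is
  the matrix of `z`, which acts on the part of type `(p, q)` as `z ^ p * conj z ^ q`;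
* `Γ = Gal(K / k₁)`, for a finitely generated field `k₁` with algebraic closure `K`, acts on
  `H_ℓ(M) = ℚ_ℓ ⊗ B M`, and `galois M s` is the matrix of `s`. The motive `M` has a model over a finite
  extension of `k₁` in `K`, so that only an open subgroup of `Γ` acts, and only up to passage to a
  smaller open subgroup: the matrices `galois M s` are relevant only for the elements `s` of a small
  open subgroup. -/
structure Motives (k K : Type) [Field k] [Field K] (ℓ : ℕ) [Fact ℓ.Prime] where
  /-- the category of motives -/
  C : Type 1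
  [category : Category.{0} C]
  [abelian : Abelian C]
  [monoidal : MonoidalCategory C]
  [braided : BraidedCategory C]
  /-- `Gr^W_w H^n_c(X_K)` -/
  V : ℤ → ℤ → Sch k → C
  /-- the cohomology `H^n(X)` of the smooth projective varieties over `K` -/
  H : ℤ → Sch K → C
  /-- the Tate motives `ℚ(-r)` -/
  L : ℤ → C
  /-- the dimension of the Betti realization -/
  d : C → ℕ
  /-- the matrix of a morphism in the Betti realization -/
  mat : ∀ {M N : C}, (M ⟶ N) → Matrix (Fin (d N)) (Fin (d M)) ℚ
  /-- the Hodge structure -/
  hodge : ∀ M : C, ℂˣ → Matrix (Fin (d M)) (Fin (d M)) ℝ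
  /-- the Galois group -/
  Γ : Type
  [group : Group Γ]
  [topology : TopologicalSpace Γ]
  /-- the Galois action -/
  galois : ∀ M : C, Γ → Matrix (Fin (d M)) (Fin (d M)) ℚ_[ℓ]

attribute [instance] Motives.category Motives.abelian Motives.monoidal Motives.braided
  Motives.group Motives.topology

section objects

variable {C : Type 1} [Category.{0} C]

/-- `M` is a direct summand of `N`. -/
def Summand (M N : C) : Prop := ∃ (i : M ⟶ N) (r : N ⟶ M), i ≫ r = 𝟙 M

variable [Abelian C]

/-- The finite direct sums of objects of the class `P`. -/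
inductive Sums (P : C → Prop) : C → Prop
  | zero {M : C} : IsZero M → Sums P M
  | of {M : C} : P M → Sums P M
  | sum {M N : C} : Sums P M → Sums P N → Sums P (M ⊞ N)

variable [MonoidalCategory C]

/-- The tensor category generated by the objects of the class `P` and the objects `L r`: the
smallest class of objects which contains them and which is closed under direct sums, direct
summands and tensor products. (Dual motives are not needed, since the dual of a pure motive, which
is polarizable, is isomorphic to a Tate twist of it.) -/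
inductive Tens (L : ℤ → C) (P : C → Prop) : C → Prop
  | of {M : C} : P M → Tens L P M
  | tate (r : ℤ) : Tens L P (L r)
  | zero {M : C} : IsZero M → Tens L P M
  | retract {M N : C} : Summand M N → Tens L P N → Tens L P M
  | sum {M N : C} : Tens L P M → Tens L P N → Tens L P (M ⊞ N)
  | tensor {M N : C} : Tens L P M → Tens L P N → Tens L P (M ⊗ N)

end objects

section motives

variable {k K : Type} [Field k] [Field K] {ℓ : ℕ} [Fact ℓ.Prime] (T : Motives k K ℓ)

/-- The Tate twist `M(-r)`. -/
def Motives.tw (r : ℤ) (M : T.C) : T.C := M ⊗ T.L r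

/-- The matrix of a morphism in the `ℓ`-adic realization. -/
noncomputable def Motives.matF {M N : T.C} (f : M ⟶ N) :
    Matrix (Fin (T.d N)) (Fin (T.d M)) ℚ_[ℓ] := (T.mat f).map (↑)

/-- The matrix of a morphism in the real vector spaces `ℝ ⊗ B M`. -/
noncomputable def Motives.matR {M N : T.C} (f : M ⟶ N) :
    Matrix (Fin (T.d N)) (Fin (T.d M)) ℝ := (T.mat f).map (↑)

/-- `u` is a Hodge class: it is invariant under the action of the Deligne torus. -/
def Motives.IsHodge (M : T.C) (u : Fin (T.d M) → ℚ) : Prop :=
  ∀ z : ℂˣ, (T.hodge M z).mulVec (fun i => (u i : ℝ)) = fun i => (u i : ℝ)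

/-- The linear combinations of the Hodge classes in the `ℓ`-adic realization. -/
noncomputable def Motives.HodgeSpan (M : T.C) : Submodule ℚ_[ℓ] (Fin (T.d M) → ℚ_[ℓ]) :=
  Submodule.span ℚ_[ℓ] {w | ∃ u, T.IsHodge M u ∧ w = fun i => (u i : ℚ_[ℓ])}

/-- `v` is a Tate class: it is fixed by an open subgroup of the Galois group. -/
def Motives.IsTate (M : T.C) (v : Fin (T.d M) → ℚ_[ℓ]) : Prop :=
  ∃ U : OpenSubgroup T.Γ, ∀ s ∈ U, (T.galois M s).mulVec v = v

/-- The Tate classes in the `ℓ`-adic realization of `M` are the linear combinations of the Hodge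
classes. -/
def Motives.TateIsHodge (M : T.C) : Prop := ∀ v, T.IsTate M v ↔ v ∈ T.HodgeSpan M

/-- The subspace `W` is stable under an open subgroup of the Galois group. -/
def Motives.Stable (M : T.C) (W : Submodule ℚ_[ℓ] (Fin (T.d M) → ℚ_[ℓ])) : Prop :=
  ∃ U : OpenSubgroup T.Γ, ∀ s ∈ U, ∀ v ∈ W, (T.galois M s).mulVec v ∈ W

/-- The `ℓ`-adic realization is semisimple, as a representation of the open subgroups of the Galois
group. -/
def Motives.Semisimple (M : T.C) : Prop :=
  ∀ W, T.Stable M W → ∃ W', T.Stable M W' ∧ IsCompl W W'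

/-- **The Mumford-Tate conjecture for the motive `M`**: the `ℓ`-adic realizations of the motives in
the tensor category generated by `M` and the Tate motives are semisimple, and their Tate classes are
the linear combinations of their Hodge classes. (By Tannakian duality this says that the
Mumford-Tate group of `M` is, over `ℚ_ℓ`, the identity component of the Zariski closure of the
image of the Galois group.) -/
def Motives.MumfordTate (M : T.C) : Prop :=
  ∀ N, Tens T.L (fun M' => M' = M) N → T.Semisimple N ∧ T.TateIsHodge N

/-- The motives `Gr^W_w H^n_c(X_K)`, for all schemes `X` over `k` of the class `𝒳`. -/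
def Motives.From (𝒳 : Sch k → Prop) (M : T.C) : Prop := ∃ X, 𝒳 X ∧ ∃ w n : ℤ, M = T.V w n X

/-- The Mumford-Tate conjecture for the motives `Gr^W_w H^n_c(X_K)` of the schemes `X` over `k` in the
class `𝒳`: it holds for all finite direct sums of these motives. -/
def Motives.MumfordTateFor (𝒳 : Sch k → Prop) : Prop := ∀ M, Sums (T.From 𝒳) M → T.MumfordTate M

/-- The Tate twists of the motives `Gr^W_w H^n_c(X_K)`, for all schemes `X` over `k` of the class `𝒳`,
and of the motive of the point. -/
def Motives.Twists (𝒳 : Sch k → Prop) (M : T.C) : Prop :=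
  ∃ X, (𝒳 X ∨ X = aff k k) ∧ ∃ w n r : ℤ, M = T.tw r (T.V w n X)

/-- The Tate twists of `H^1(X)` and `H^2(X)`, for all smooth projective varieties `X` over `K`. -/
def Motives.LowDegree (M : T.C) : Prop :=
  ∃ X, IsSmProj X ∧ ∃ r : ℤ, M = T.tw r (T.H 1 X) ∨ M = T.tw r (T.H 2 X)

end motives

section schemes

variable {K : Type} [Field K]

/-- The smooth projective varieties of dimension at most `n`. -/
def SmProjUpTo (n : ℕ) (X : Sch K) : Prop := IsSmProj X ∧ topologicalKrullDim X.left ≤ n

/-- The separated schemes of finite type of dimension at most `n`. -/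
def SchemesUpTo (n : ℕ) (X : Sch K) : Prop := FT True X ∧ topologicalKrullDim X.left ≤ n

/-- The hypersurfaces `S(x, y, z) = 1`, `S` a trilinear form over `K` one of whose three blocks of
variables has at most `m` variables. -/
def CubicsUpTo (m : ℕ) (X : Sch K) : Prop :=
  ∃ (a b c : ℕ) (S : Fin a → Fin b → Fin c → K), (a ≤ m ∨ b ≤ m ∨ c ≤ m) ∧ X = hypS S

/-- `A` is an abelian variety: a smooth projective variety which is a group scheme. -/
def IsAbVar (A : Sch K) : Prop := IsSmProj A ∧ Nonempty (GrpObj A)

end schemes

section theory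

variable {k K : Type} [Field k] [Field K] {ℓ : ℕ} [Fact ℓ.Prime]

/-- The tensor category of motives: the properties in `IsWeightTheory` (the category is semisimple;
localization sequences, affine bundles, products with `𝔾_m`, purity for smooth projective
varieties), the tensor product is additive; the Tate motives, and the motive of the point. -/
structure IsTensorTheory (T : Motives k K ℓ) : Prop where
  pieces : IsWeightTheory T.V T.tw
  bilinear : MonoidalPreadditive T.C
  tate_zero : Nonempty (T.L 0 ≅ 𝟙_ T.C)
  tate_add : ∀ r s : ℤ, Nonempty (T.L r ⊗ T.L s ≅ T.L (r + s))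
  point : Nonempty (T.V 0 0 (aff k k) ≅ 𝟙_ T.C)
  point_zero : ∀ w n : ℤ, w ≠ 0 ∨ n ≠ 0 → IsZero (T.V w n (aff k k))

/-- The Betti realization is an additive functor. -/
structure IsFunctor (T : Motives k K ℓ) : Prop where
  mat_id : ∀ M : T.C, T.mat (𝟙 M) = 1
  mat_comp : ∀ {M N P : T.C} (f : M ⟶ N) (g : N ⟶ P), T.mat (f ≫ g) = T.mat g * T.mat f
  mat_add : ∀ {M N : T.C} (f g : M ⟶ N), T.mat (f + g) = T.mat f + T.mat g

/-- A small open subgroup of `Γ` acts on `ℚ_ℓ ⊗ B M`. -/
def Motives.IsGerm (T : Motives k K ℓ) (M : T.C) : Prop :=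
  ∃ U : OpenSubgroup T.Γ, T.galois M 1 = 1 ∧
    ∀ s ∈ U, ∀ t ∈ U, T.galois M (s * t) = T.galois M s * T.galois M t

/-- The `ℓ`-adic realization of the tensor product is isomorphic to the tensor product of the
`ℓ`-adic realizations, for a small open subgroup of `Γ`. -/
def Motives.GaloisTensor (T : Motives k K ℓ) (M N : T.C) : Prop :=
  ∃ (e : Matrix (Fin (T.d (M ⊗ N))) (Fin (T.d M) × Fin (T.d N)) ℚ_[ℓ])
    (e' : Matrix (Fin (T.d M) × Fin (T.d N)) (Fin (T.d (M ⊗ N))) ℚ_[ℓ]), e * e' = 1 ∧ e' * e = 1 ∧
    ∃ U : OpenSubgroup T.Γ, ∀ s ∈ U, T.galois (M ⊗ N) s * e =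
      e * Matrix.kroneckerMap (· * ·) (T.galois M s) (T.galois N s)

/-- The Hodge structure of the tensor product is isomorphic to the tensor product of the Hodge
structures. -/
def Motives.HodgeTensor (T : Motives k K ℓ) (M N : T.C) : Prop :=
  ∃ (e : Matrix (Fin (T.d (M ⊗ N))) (Fin (T.d M) × Fin (T.d N)) ℝ)
    (e' : Matrix (Fin (T.d M) × Fin (T.d N)) (Fin (T.d (M ⊗ N))) ℝ), e * e' = 1 ∧ e' * e = 1 ∧
    ∀ z, T.hodge (M ⊗ N) z * e = e * Matrix.kroneckerMap (· * ·) (T.hodge M z) (T.hodge N z)

/-- The action of small open subgroups of `Γ` on `ℚ_ℓ ⊗ B M`: it is natural and compatible with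
tensor products, and if all weights of `M` are odd (`-1` acts as `-1`), there are no Tate classes in
the realization of `M` other than `0` (Deligne). -/
structure IsGalois (T : Motives k K ℓ) : Prop where
  germ : ∀ M, T.IsGerm M
  galois_map : ∀ {M N : T.C} (f : M ⟶ N), ∃ U : OpenSubgroup T.Γ, ∀ s ∈ U,
    T.matF f * T.galois M s = T.galois N s * T.matF f
  galois_tensor : ∀ M N, T.GaloisTensor M N
  odd : ∀ M, T.hodge M (-1) = -1 → ∀ v, T.IsTate M v → v = 0

/-- The Hodge structures are natural and compatible with tensor products, `H^n(X)` has the weight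
`n`, and `ℚ(-r)` has the type `(r, r)`. -/
structure IsHodgeTheory (T : Motives k K ℓ) : Prop where
  hodge_map : ∀ {M N : T.C} (f : M ⟶ N) (z : ℂˣ), T.matR f * T.hodge M z = T.hodge N z * T.matR f
  hodge_tensor : ∀ M N, T.HodgeTensor M N
  hodge_weight : ∀ (n : ℤ) (X : Sch K), IsSmProj X → ∀ (t : ℝ) (z : ℂˣ), (z : ℂ) = t →
    T.hodge (T.H n X) z = t ^ n • 1
  hodge_tate : ∀ (r : ℤ) (z : ℂˣ), T.hodge (T.L r) z = Complex.normSq z ^ r • 1

/-- The cohomology of a smooth projective variety `Y` over `K` whose dimension is at most the one of the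
scheme `X`. -/
def Motives.HUpTo (T : Motives k K ℓ) (n : ℤ) (X : Sch k) (M : T.C) : Prop :=
  ∃ Y : Sch K, IsSmProj Y ∧
    topologicalKrullDim Y.left ≤ topologicalKrullDim X.left ∧ M = T.H n Y

/-- `components`: for a smooth projective variety `X` over `k` the cohomology of `X_K` is the direct sum
of the cohomology of the components of `X_K`. `descent`: a smooth projective variety `X` over `K` is
defined over a finite extension `k'` of `k`, and is a component of `X'_K`, where `X'` is the model of
`X` over `k'`, considered as a scheme over `k`. -/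
structure IsDescent (T : Motives k K ℓ) : Prop where
  components : ∀ X : Sch k, IsSmProj X → ∀ n : ℤ, ∃ M, Sums (T.HUpTo n X) M ∧
    Nonempty (T.V n n X ≅ M)
  descent : ∀ X : Sch K, IsSmProj X → ∃ X' : Sch k, IsSmProj X' ∧
    topologicalKrullDim X'.left ≤ topologicalKrullDim X.left ∧
      ∀ n : ℤ, Summand (T.H n X) (T.V n n X')

/-- The cohomology of smooth projective varieties over `K`: `H^n(X) = 0` for `n < 0`, `H^0(X)` is the
unit motive, and `H^n(X) = H^{2d-n}(X)(d-n)` if `d` is the dimension (Poincaré duality and the hard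
Lefschetz theorem); products, and the Künneth formula for `H^1` and `H^2`. -/
structure IsCohomology (T : Motives k K ℓ) : Prop where
  negative : ∀ X : Sch K, IsSmProj X → ∀ n : ℤ, n < 0 → IsZero (T.H n X)
  degree_zero : ∀ X : Sch K, IsSmProj X → Nonempty (T.H 0 X ≅ 𝟙_ T.C)
  duality : ∀ (X : Sch K) (d : ℕ), IsSmProj X → topologicalKrullDim X.left = d → ∀ n : ℤ,
    Nonempty (T.H n X ≅ T.tw (n - d) (T.H (2 * d - n) X))
  product : ∀ X Y : Sch K, IsSmProj X → IsSmProj Y → IsSmProj (X ⊗ Y)
  kunneth_one : ∀ X Y : Sch K, IsSmProj X → IsSmProj Y →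
    Nonempty (T.H 1 (X ⊗ Y) ≅ T.H 1 X ⊞ T.H 1 Y)
  kunneth_two : ∀ X Y : Sch K, IsSmProj X → IsSmProj Y →
    Nonempty (T.H 2 (X ⊗ Y) ≅ (T.H 2 X ⊞ T.H 2 Y) ⊞ (T.H 1 X ⊗ T.H 1 Y))

/-- `lefschetz`: for a smooth linear section `Y` of dimension `m` of `X`, `H^n(X)` is a direct summand
of `H^n(Y)` for `n ≤ m` (the weak Lefschetz theorem and the semisimplicity of the category).
`albanese`: `H^1(X)` is the `H^1` of the Albanese variety. -/
structure IsLefschetz (T : Motives k K ℓ) : Prop where
  lefschetz : ∀ (X : Sch K) (m : ℕ), IsSmProj X → 1 ≤ m → ∃ Y : Sch K, IsSmProj Y ∧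
    topologicalKrullDim Y.left ≤ m ∧ ∀ n : ℤ, n ≤ m → Summand (T.H n X) (T.H n Y)
  albanese : ∀ X : Sch K, IsSmProj X → ∃ A : Sch K, IsAbVar A ∧ Nonempty (T.H 1 X ≅ T.H 1 A)

/-- The known properties of the motives over the algebraically closed field `K` of characteristic
zero, and of the schemes over the subfield `k`, over which `K` is algebraic. -/
structure IsTheory (T : Motives k K ℓ) : Prop extends IsTensorTheory T, IsFunctor T, IsGalois T,
  IsHodgeTheory T, IsDescent T, IsCohomology T, IsLefschetz T

end theory

section specialization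

variable {ℓ : ℕ} [Fact ℓ.Prime] {k K k' K' : Type} [Field k] [Field K] [Field k'] [Field K']

/-- **Specialization.** The theory `T` (over the algebraic numbers, in the application) and the theory
`T'` over another field `K'` are related as follows: for every smooth projective variety `X'` over `K'`
there is a smooth projective variety `X` over `K` (a specialization of `X'`) such that the
Mumford-Tate conjecture for `H^n(X)` implies the Mumford-Tate conjecture for `H^n(X')`. (Serre and
Terasoma: a suitable closed fibre `X` of a model of `X'` has the same `ℓ`-adic Lie algebra, and this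
Lie algebra contains the one of the geometric monodromy group. Deligne: the Mumford-Tate group of `X'` is
generated by the geometric monodromy group and the Mumford-Tate group of `X`.) -/
def Specializes (n : ℤ) (T' : Motives k' K' ℓ) (T : Motives k K ℓ) : Prop :=
  ∀ X', IsSmProj X' → ∃ X, IsSmProj X ∧
    (T.MumfordTate (T.H n X) → T'.MumfordTate (T'.H n X'))

end specialization

end Pool.Agent.V5helper94.TM
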