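import Pool.Agent.V5helper94.TM.Core

/-!
# The graded pieces of the cohomology of surfaces, curves and cubic hypersurfaces
-/

set_option autoImplicit false
set_option linter.unusedSectionVars false

open CategoryTheory CategoryTheory.Limits AlgebraicGeometry MonoidalCategory
  Pool.Agent.Y116.UV Pool.Agent.V5helper77.GW

open scoped ZeroObject

namespace Pool.Agent.V5helper94.TM

section hironaka

variable {K : Type} [Field K]

lemma exists_smProj (hH : Hironaka K) : ∃ X : Sch K, IsSmProj X := by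
  obtain ⟨X, _, hX, -⟩ := hH K
  exact ⟨X, hX⟩

lemma exists_curve (hH : Hironaka K) : ∃ X : Sch K, IsSmProj X ∧
    topologicalKrullDim X.left = (1 : ℕ) := by
  have hs : Algebra.Smooth K (Polynomial K) := ⟨inferInstance, inferInstance⟩
  obtain ⟨X, _, hX, -, hd⟩ := hH (Polynomial K)
  refine ⟨X, hX, ?_⟩
  rw [hd, Polynomial.ringKrullDim_of_isNoetherianRing, ringKrullDim_eq_zero_of_field]
  norm_num

/-- the dimension of a smooth projective variety is a natural number -/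
lemma exists_dim {X : Sch K} (hX : IsSmProj X) {n : ℕ} (h : topologicalKrullDim X.left ≤ n) :
    ∃ d : ℕ, d ≤ n ∧ topologicalKrullDim X.left = d := by
  have hint := hX.integral
  have h0 : 0 ≤ topologicalKrullDim X.left := by
    obtain ⟨x⟩ := (inferInstance : Nonempty X.left)
    have h2 : Nonempty (TopologicalSpace.IrreducibleCloseds X.left) :=
      ⟨⟨closure {x}, isIrreducible_singleton.closure, isClosed_closure⟩⟩
    unfold topologicalKrullDim
    exact Order.krullDim_nonneg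
  generalize topologicalKrullDim X.left = e at h h0
  induction e using WithBot.recBotCoe with
  | bot => exact absurd h0 (by simp)
  | coe e =>
    induction e using ENat.recTopCoe with
    | top => exact absurd h (by
        rw [not_le]
        exact_mod_cast ENat.natCast_lt_top n)
    | coe e => exact ⟨e, by exact_mod_cast h, rfl⟩

end hironaka

variable {k K : Type} [Field k] [Field K] {ℓ : ℕ} [Fact ℓ.Prime] {T : Motives k K ℓ}
  (hT : IsTheory T)

include hT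

lemma tw_tw (M : T.C) (r s t : ℤ) (h : r + s = t) : Nonempty ((M ⊗ T.L r) ⊗ T.L s ≅ M ⊗ T.L t) := by
  subst h
  obtain ⟨e⟩ := hT.tate_add r s
  exact ⟨α_ _ _ _ ≪≫ whiskerLeftIso M e⟩

lemma tw_zero (M : T.C) : Nonempty (M ⊗ T.L 0 ≅ M) := by
  obtain ⟨e⟩ := hT.tate_zero
  exact ⟨whiskerLeftIso M e ≪≫ ρ_ M⟩

lemma tw_neg (M : T.C) (r : ℤ) : Nonempty ((M ⊗ T.L r) ⊗ T.L (-r) ≅ M) := by
  obtain ⟨e⟩ := tw_tw hT M r (-r) 0 (by ring)
  obtain ⟨e'⟩ := tw_zero hT M
  exact ⟨e ≪≫ e'⟩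

/-- a twist passes from one side to the other -/
lemma summand_tw {M N : T.C} {r s t : ℤ} (h : Summand (M ⊗ T.L r) (N ⊗ T.L s)) (ht : t = s - r) :
    Summand M (N ⊗ T.L t) :=
  ((Summand.of_iso' (tw_neg hT M r)).trans (Summand.tensor h (Summand.refl (T.L (-r))))).trans
    (Summand.of_iso (tw_tw hT N s (-r) t (by rw [ht]; ring)))

lemma summand_tw' {M N : T.C} {r s t : ℤ} (h : Summand M (N ⊗ T.L s)) (ht : t = s + r) :
    Summand (M ⊗ T.L r) (N ⊗ T.L t) :=
  (Summand.tensor h (Summand.refl (T.L r))).trans (Summand.of_iso (tw_tw hT N s r t ht.symm))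

lemma summand_sum_tw (M N : T.C) (r : ℤ) : Summand ((M ⊗ T.L r) ⊞ (N ⊗ T.L r)) ((M ⊞ N) ⊗ T.L r) := by
  have := hT.bilinear
  exact summand_sum_map (tensorRight (T.L r)) M N

lemma summand_tw_sum (M N : T.C) (r : ℤ) : Summand ((M ⊞ N) ⊗ T.L r) ((M ⊗ T.L r) ⊞ (N ⊗ T.L r)) := by
  have := hT.bilinear
  exact summand_map_sum (tensorRight (T.L r)) M N

/-- The top cohomology and the one below. -/
lemma top_iso {X : Sch K} {d : ℕ} (hX : IsSmProj X) (hd : topologicalKrullDim X.left = d) :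
    Nonempty (T.H (2 * d) X ≅ T.L d) := by
  obtain ⟨e⟩ := hT.duality X d hX hd (2 * d)
  rw [sub_self, show (2 * (d : ℤ) - d) = d by ring] at e
  obtain ⟨e'⟩ := hT.degree_zero X hX
  exact ⟨e ≪≫ whiskerRightIso e' (T.L d) ≪≫ λ_ _⟩

lemma zero_iso {X : Sch K} (hX : IsSmProj X) : Nonempty (T.H 0 X ≅ T.L 0) := by
  obtain ⟨e⟩ := hT.degree_zero X hX
  obtain ⟨e'⟩ := hT.tate_zero
  exact ⟨e ≪≫ e'.symm⟩

lemma high_zero {X : Sch K} {d : ℕ} (hX : IsSmProj X) (hd : topologicalKrullDim X.left = d) {n : ℤ}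
    (hn : 2 * d < n) : IsZero (T.H n X) := by
  have := hT.bilinear
  obtain ⟨e⟩ := hT.duality X d hX hd n
  refine IsZero.of_iso ?_ e
  exact (tensorRight (T.L (n - d))).map_isZero (hT.negative X hX (2 * d - n) (by linarith))

/-- The weight `2 v`: direct summands of `H^2(Y)(1-v)`, `Y` a surface; the weight `2 v + 1`: direct
summands of `H^1(A)(-v)`, `A` an abelian variety. -/
def STwo (T : Motives k K ℓ) (w : ℤ) (M : T.C) : Prop :=
  (∀ v : ℤ, w = 2 * v → ∃ Y, IsSmProj Y ∧ topologicalKrullDim Y.left ≤ (2 : ℕ) ∧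
    Summand M (T.H 2 Y ⊗ T.L (v - 1))) ∧
  ∀ v : ℤ, w = 2 * v + 1 → ∃ A, IsAbVar A ∧ Summand M (T.H 1 A ⊗ T.L v)

/-- The weight `2 v`: direct summands of sums of copies of `ℚ(-v)`; the weight `2 v + 1`: direct
summands of `H^1(A)(-v)`, `A` an abelian variety. -/
def SOne (T : Motives k K ℓ) (w : ℤ) (M : T.C) : Prop :=
  (∀ v : ℤ, w = 2 * v → ∃ N, Sums (fun x => x = T.L v) N ∧ Summand M N) ∧
  ∀ v : ℤ, w = 2 * v + 1 → ∃ A, IsAbVar A ∧ Summand M (T.H 1 A ⊗ T.L v)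

lemma ab_sum {A A' : Sch K} (hA : IsAbVar A) (hA' : IsAbVar A') :
    ∃ A'', IsAbVar A'' ∧ Summand (T.H 1 A ⊞ T.H 1 A') (T.H 1 A'') := by
  obtain ⟨A'', h, e⟩ := hT.albanese (A ⊗ A') (hT.product A A' hA.1 hA'.1)
  exact ⟨A'', h, (h1_sum hT hA.1 hA'.1).trans (Summand.of_iso e)⟩

lemma surf_sum {Y Y' : Sch K} (hY : IsSmProj Y) (hY' : IsSmProj Y') :
    ∃ Y'', IsSmProj Y'' ∧ topologicalKrullDim Y''.left ≤ (2 : ℕ) ∧
      Summand (T.H 2 Y ⊞ T.H 2 Y') (T.H 2 Y'') := by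
  obtain ⟨Y'', h, hd, h1⟩ := hT.lefschetz (Y ⊗ Y') 2 (hT.product Y Y' hY hY') (by norm_num)
  exact ⟨Y'', h, hd, (h2_sum hT hY hY').trans (h1 2 (by norm_num))⟩

lemma odd_sum {M M' : T.C} {v : ℤ} (h : ∃ A, IsAbVar A ∧ Summand M (T.H 1 A ⊗ T.L v))
    (h' : ∃ A, IsAbVar A ∧ Summand M' (T.H 1 A ⊗ T.L v)) :
    ∃ A, IsAbVar A ∧ Summand (M ⊞ M') (T.H 1 A ⊗ T.L v) := by
  obtain ⟨A, hA, h1⟩ := h
  obtain ⟨A', hA', h1'⟩ := h'
  obtain ⟨A'', hA'', h2⟩ := ab_sum hT hA hA'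
  exact ⟨A'', hA'', ((Summand.sum h1 h1').trans (summand_sum_tw hT _ _ v)).trans
    (Summand.tensor h2 (Summand.refl _))⟩

lemma even_sum {M M' : T.C} {v : ℤ} (h : ∃ Y, IsSmProj Y ∧ topologicalKrullDim Y.left ≤ (2 : ℕ) ∧
      Summand M (T.H 2 Y ⊗ T.L v))
    (h' : ∃ Y, IsSmProj Y ∧ topologicalKrullDim Y.left ≤ (2 : ℕ) ∧ Summand M' (T.H 2 Y ⊗ T.L v)) :
    ∃ Y, IsSmProj Y ∧ topologicalKrullDim Y.left ≤ (2 : ℕ) ∧
      Summand (M ⊞ M') (T.H 2 Y ⊗ T.L v) := by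
  obtain ⟨Y, hY, -, h1⟩ := h
  obtain ⟨Y', hY', -, h1'⟩ := h'
  obtain ⟨Y'', hY'', hd, h2⟩ := surf_sum hT hY hY'
  exact ⟨Y'', hY'', hd, ((Summand.sum h1 h1').trans (summand_sum_tw hT _ _ v)).trans
    (Summand.tensor h2 (Summand.refl _))⟩

lemma exists_ab (hH : Hironaka K) : ∃ A : Sch K, IsAbVar A := by
  obtain ⟨X, hX⟩ := exists_smProj hH
  obtain ⟨A, hA, -⟩ := hT.albanese X hX
  exact ⟨A, hA⟩

/-- the Tate motives in the cohomology of curves -/
lemma tate_curve (hH : Hironaka K) (v : ℤ) : ∃ Y : Sch K, IsSmProj Y ∧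
    topologicalKrullDim Y.left ≤ (2 : ℕ) ∧ Summand (T.L v) (T.H 2 Y ⊗ T.L (v - 1)) := by
  obtain ⟨Y, hY, hd⟩ := exists_curve hH
  obtain ⟨e⟩ := top_iso hT hY hd
  obtain ⟨e'⟩ := hT.tate_add 1 (v - 1)
  rw [show (1 : ℤ) + (v - 1) = v by ring] at e'
  have e2 : T.H 2 Y ≅ T.L 1 := by
    have h := e
    norm_num at h
    exact h
  exact ⟨Y, hY, by rw [hd]; norm_num, Summand.of_iso' ⟨whiskerRightIso e2 _ ≪≫ e'⟩⟩

theorem sTwo_class (hH : Hironaka K) : IsTwistClass (STwo T) T.tw where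
  zero w M h := by
    obtain ⟨A, hA⟩ := exists_ab hT hH
    obtain ⟨Y, hY, hd, -⟩ := tate_curve hT hH 0
    exact ⟨fun v _ => ⟨Y, hY, hd, Summand.of_isZero h⟩, fun v _ => ⟨A, hA, Summand.of_isZero h⟩⟩
  retract w M N i r h h' := by
    have h0 : Summand M N := ⟨i, r, h⟩
    refine ⟨fun v hv => ?_, fun v hv => ?_⟩
    · obtain ⟨Y, hY, hd, h1⟩ := h'.1 v hv
      exact ⟨Y, hY, hd, h0.trans h1⟩
    · obtain ⟨A, hA, h1⟩ := h'.2 v hv
      exact ⟨A, hA, h0.trans h1⟩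
  sum w M N h h' := ⟨fun v hv => even_sum hT (h.1 v hv) (h'.1 v hv),
    fun v hv => odd_sum hT (h.2 v hv) (h'.2 v hv)⟩
  twist w r M := by
    constructor
    · intro h
      refine ⟨fun v hv => ?_, fun v hv => ?_⟩
      · obtain ⟨Y, hY, hd, h1⟩ := h.1 (v + r) (by rw [hv]; ring)
        exact ⟨Y, hY, hd, summand_tw hT h1 (by ring)⟩
      · obtain ⟨A, hA, h1⟩ := h.2 (v + r) (by rw [hv]; ring)
        exact ⟨A, hA, summand_tw hT h1 (by ring)⟩
    · intro h
      refine ⟨fun v hv => ?_, fun v hv => ?_⟩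
      · obtain ⟨Y, hY, hd, h1⟩ := h.1 (v - r) (by linarith)
        exact ⟨Y, hY, hd, summand_tw' hT h1 (by ring)⟩
      · obtain ⟨A, hA, h1⟩ := h.2 (v - r) (by linarith)
        exact ⟨A, hA, summand_tw' hT h1 (by ring)⟩

/-- direct sums of copies of `L v` and twists -/
lemma sums_tw {v w r : ℤ} (h : v + r = w) {N : T.C} (hN : Sums (fun x => x = T.L v) N) :
    ∃ N', Sums (fun x => x = T.L w) N' ∧ Summand (N ⊗ T.L r) N' := by
  have := hT.bilinear
  induction hN with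
  | zero h' => exact ⟨_, .zero (isZero_zero T.C), Summand.of_isZero ((tensorRight (T.L r)).map_isZero h')⟩
  | of h' =>
    subst h'
    obtain ⟨e⟩ := hT.tate_add v r
    rw [h] at e
    exact ⟨_, .of rfl, Summand.of_iso ⟨e⟩⟩
  | sum _ _ ih1 ih2 =>
    obtain ⟨N, hN, h1⟩ := ih1
    obtain ⟨N', hN', h1'⟩ := ih2
    exact ⟨_, .sum hN hN', (summand_tw_sum hT _ _ r).trans (Summand.sum h1 h1')⟩

theorem sOne_class (hH : Hironaka K) : IsTwistClass (SOne T) T.tw where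
  zero w M h := by
    obtain ⟨A, hA⟩ := exists_ab hT hH
    exact ⟨fun v _ => ⟨M, .zero h, Summand.refl _⟩, fun v _ => ⟨A, hA, Summand.of_isZero h⟩⟩
  retract w M N i r h h' := by
    have h0 : Summand M N := ⟨i, r, h⟩
    refine ⟨fun v hv => ?_, fun v hv => ?_⟩
    · obtain ⟨Y, hY, h1⟩ := h'.1 v hv
      exact ⟨Y, hY, h0.trans h1⟩
    · obtain ⟨A, hA, h1⟩ := h'.2 v hv
      exact ⟨A, hA, h0.trans h1⟩
  sum w M N h h' := by
    refine ⟨fun v hv => ?_, fun v hv => odd_sum hT (h.2 v hv) (h'.2 v hv)⟩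
    obtain ⟨Y, hY, h1⟩ := h.1 v hv
    obtain ⟨Y', hY', h1'⟩ := h'.1 v hv
    exact ⟨_, .sum hY hY', Summand.sum h1 h1'⟩
  twist w r M := by
    constructor
    · intro h
      refine ⟨fun v hv => ?_, fun v hv => ?_⟩
      · obtain ⟨Y, hY, h1⟩ := h.1 (v + r) (by rw [hv]; ring)
        obtain ⟨N, hN, h2⟩ := sums_tw hT (v := v + r) (r := -r) (w := v) (by ring) hY
        exact ⟨N, hN, ((Summand.of_iso' (tw_neg hT M r)).trans
          (Summand.tensor h1 (Summand.refl _))).trans h2⟩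
      · obtain ⟨A, hA, h1⟩ := h.2 (v + r) (by rw [hv]; ring)
        exact ⟨A, hA, summand_tw hT h1 (by ring)⟩
    · intro h
      refine ⟨fun v hv => ?_, fun v hv => ?_⟩
      · obtain ⟨Y, hY, h1⟩ := h.1 (v - r) (by linarith)
        obtain ⟨N, hN, h2⟩ := sums_tw hT (v := v - r) (r := r) (w := v) (by ring) hY
        exact ⟨N, hN, (Summand.tensor h1 (Summand.refl _)).trans h2⟩
      · obtain ⟨A, hA, h1⟩ := h.2 (v - r) (by linarith)
        exact ⟨A, hA, summand_tw' hT h1 (by ring)⟩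

/-- the odd part of the cohomology in degree one -/
lemma odd_one {X : Sch K} (hX : IsSmProj X) : ∃ A, IsAbVar A ∧ Summand (T.H 1 X) (T.H 1 A ⊗ T.L 0) := by
  obtain ⟨A, hA, e⟩ := hT.albanese X hX
  exact ⟨A, hA, (Summand.of_iso e).trans (Summand.of_iso' (tw_zero hT _))⟩

theorem sTwo_smProj (hH : Hironaka K) {X : Sch K} (hX : IsSmProj X)
    (hd : topologicalKrullDim X.left ≤ (2 : ℕ)) (n : ℤ) : STwo T n (T.H n X) := by
  have hcl := sTwo_class hT hH
  obtain ⟨d, hd2, hd'⟩ := exists_dim hX hd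
  have htate : ∀ v : ℤ, STwo T (2 * v) (T.L v) := by
    intro v
    obtain ⟨Y, hY, hdY, h1⟩ := tate_curve hT hH v
    refine ⟨fun u hu => ?_, fun u hu => absurd hu (by omega)⟩
    have : u = v := by omega
    subst this
    exact ⟨Y, hY, hdY, h1⟩
  rcases lt_or_ge n 0 with hn | hn
  · exact hcl.zero _ _ (hT.negative X hX n hn)
  rcases lt_or_ge (2 * (d : ℤ)) n with hn' | hn'
  · exact hcl.zero _ _ (high_zero hT hX hd' hn')
  by_cases h0 : n = 0
  · subst h0
    obtain ⟨i, r, h⟩ := Summand.of_iso (zero_iso hT hX)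
    exact hcl.retract 0 i r h (htate 0)
  by_cases h1 : n = 2 * d
  · subst h1
    obtain ⟨i, r, h⟩ := Summand.of_iso (top_iso hT hX hd')
    exact hcl.retract _ i r h (htate d)
  by_cases h2 : n = 2
  · subst h2
    refine ⟨fun u hu => ?_, fun u hu => absurd hu (by omega)⟩
    have : u = 1 := by omega
    subst this
    exact ⟨X, hX, hd, Summand.of_iso' (tw_zero hT _)⟩
  by_cases h3 : n = 1
  · subst h3
    refine ⟨fun u hu => absurd hu (by omega), fun u hu => ?_⟩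
    have : u = 0 := by omega
    subst this
    exact odd_one hT hX
  · have h4 : n = 3 ∧ d = 2 := by omega
    obtain ⟨rfl, rfl⟩ := h4
    refine ⟨fun u hu => absurd hu (by omega), fun u hu => ?_⟩
    have : u = 1 := by omega
    subst this
    obtain ⟨e⟩ := hT.duality X 2 hX hd' 3
    norm_num at e
    obtain ⟨A, hA, h5⟩ := odd_one hT hX
    exact ⟨A, hA, (Summand.of_iso ⟨e⟩).trans (summand_tw' hT h5 (by ring))⟩

theorem sOne_smProj (hH : Hironaka K) {X : Sch K} (hX : IsSmProj X)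
    (hd : topologicalKrullDim X.left ≤ (1 : ℕ)) (n : ℤ) : SOne T n (T.H n X) := by
  have hcl := sOne_class hT hH
  obtain ⟨d, hd2, hd'⟩ := exists_dim hX hd
  have htate : ∀ v : ℤ, SOne T (2 * v) (T.L v) := by
    intro v
    refine ⟨fun u hu => ?_, fun u hu => absurd hu (by omega)⟩
    have : u = v := by omega
    subst this
    exact ⟨_, .of rfl, Summand.refl _⟩
  rcases lt_or_ge n 0 with hn | hn
  · exact hcl.zero _ _ (hT.negative X hX n hn)
  rcases lt_or_ge (2 * (d : ℤ)) n with hn' | hn'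
  · exact hcl.zero _ _ (high_zero hT hX hd' hn')
  by_cases h0 : n = 0
  · subst h0
    obtain ⟨i, r, h⟩ := Summand.of_iso (zero_iso hT hX)
    exact hcl.retract 0 i r h (htate 0)
  by_cases h1 : n = 2 * d
  · subst h1
    obtain ⟨i, r, h⟩ := Summand.of_iso (top_iso hT hX hd')
    exact hcl.retract _ i r h (htate d)
  · have h3 : n = 1 := by omega
    subst h3
    refine ⟨fun u hu => absurd hu (by omega), fun u hu => ?_⟩
    have : u = 0 := by omega
    subst this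
    exact odd_one hT hX

/-- sums of objects of a twist class -/
lemma class_sums {S : ℤ → T.C → Prop} (hS : IsTwistClass S T.tw) {w : ℤ}
    {P : T.C → Prop} (hP : ∀ M, P M → S w M) {M : T.C} (hM : Sums P M) : S w M := by
  induction hM with
  | zero h => exact hS.zero _ _ h
  | of h => exact hP _ h
  | sum _ _ ih1 ih2 => exact hS.sum _ ih1 ih2

/-- from the varieties over `K` to the varieties over `k` -/
lemma class_down {S : ℤ → T.C → Prop} (hS : IsTwistClass S T.tw) {m : ℕ}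
    (h : ∀ Y : Sch K, IsSmProj Y → topologicalKrullDim Y.left ≤ m → ∀ n, S n (T.H n Y))
    (X : Sch k) (hX : IsSmProj X) (hd : topologicalKrullDim X.left ≤ m) (n : ℤ) :
    S n (T.V n n X) := by
  obtain ⟨M, hM, ⟨e⟩⟩ := hT.components X hX n
  refine hS.retract _ e.hom e.inv e.hom_inv_id (class_sums hT hS ?_ hM)
  rintro _ ⟨Y, hY, hdY, rfl⟩
  exact h Y hY (hdY.trans hd) n

/-- the point -/
lemma point_pieces {S : ℤ → T.C → Prop} (hS : IsTwistClass S T.tw)
    (h0 : S 0 (T.L 0)) : AllPieces T.V S (aff k k) := by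
  intro w n
  by_cases h : w ≠ 0 ∨ n ≠ 0
  · exact hS.zero _ _ (hT.point_zero w n h)
  · push Not at h
    obtain ⟨rfl, rfl⟩ := h
    obtain ⟨e⟩ := hT.point
    obtain ⟨e'⟩ := hT.tate_zero
    exact hS.retract 0 (e ≪≫ e'.symm).hom (e ≪≫ e'.symm).inv (e ≪≫ e'.symm).hom_inv_id h0

/-- The class generated by the cohomology of the schemes in `𝒳`. -/
def Gn (T : Motives k K ℓ) (𝒳 : Sch k → Prop) (_w : ℤ) (M : T.C) : Prop :=
  ∃ N, Sums (T.Twists 𝒳) N ∧ Summand M N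

lemma gn_tw {𝒳 : Sch k → Prop} {N : T.C} (hN : Sums (T.Twists 𝒳) N) (r : ℤ) :
    ∃ N', Sums (T.Twists 𝒳) N' ∧ Summand (N ⊗ T.L r) N' := by
  have := hT.bilinear
  induction hN with
  | zero h' => exact ⟨_, .zero (isZero_zero T.C), Summand.of_isZero ((tensorRight (T.L r)).map_isZero h')⟩
  | of h' =>
    obtain ⟨X, hX, w, n, s, rfl⟩ := h'
    exact ⟨_, .of ⟨X, hX, w, n, s + r, rfl⟩, Summand.of_iso (tw_tw hT _ s r _ rfl)⟩
  | sum _ _ ih1 ih2 =>
    obtain ⟨N, hN, h1⟩ := ih1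
    obtain ⟨N', hN', h1'⟩ := ih2
    exact ⟨_, .sum hN hN', (summand_tw_sum hT _ _ r).trans (Summand.sum h1 h1')⟩

theorem gn_class (𝒳 : Sch k → Prop) : IsTwistClass (Gn T 𝒳) T.tw where
  zero w M h := ⟨M, .zero h, Summand.refl _⟩
  retract w M N i r h h' := by
    obtain ⟨N', hN', h1⟩ := h'
    exact ⟨N', hN', Summand.trans ⟨i, r, h⟩ h1⟩
  sum w M N h h' := by
    obtain ⟨Y, hY, h1⟩ := h
    obtain ⟨Y', hY', h1'⟩ := h'
    exact ⟨_, .sum hY hY', Summand.sum h1 h1'⟩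
  twist w r M := by
    constructor
    · rintro ⟨N, hN, h1⟩
      obtain ⟨N', hN', h2⟩ := gn_tw hT hN (-r)
      exact ⟨N', hN', ((Summand.of_iso' (tw_neg hT M r)).trans
        (Summand.tensor h1 (Summand.refl _))).trans h2⟩
    · rintro ⟨N, hN, h1⟩
      obtain ⟨N', hN', h2⟩ := gn_tw hT hN r
      exact ⟨N', hN', (Summand.tensor h1 (Summand.refl _)).trans h2⟩

lemma gn_pieces {𝒳 : Sch k → Prop} {X : Sch k} (hX : 𝒳 X ∨ X = aff k k) :
    AllPieces T.V (Gn T 𝒳) X := fun w n =>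
  ⟨_, .of ⟨X, hX, w, n, 0, rfl⟩, Summand.of_iso' (tw_zero hT _)⟩

/-- **Generation**: the cohomology of smooth projective varieties of dimension at most `n` and the
cubic hypersurfaces with a block of at most `n + 2` variables. -/
theorem gn_cubics [CharZero k] (hk : Hironaka k) (n : ℕ) {X : Sch K} (hX : IsSmProj X)
    (hd : topologicalKrullDim X.left ≤ n) (i : ℤ) : Gn T (CubicsUpTo (n + 2)) i (T.H i X) := by
  obtain ⟨X', hX', hd', h⟩ := hT.descent X hX
  obtain ⟨N, hN, h1⟩ := (graded_iff hT.pieces (gn_class hT (CubicsUpTo (n + 2)))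
    (gn_pieces hT (Or.inr rfl)) hk n).2.mpr
    (fun a b c S h => gn_pieces hT (Or.inl ⟨a, b, c, S, h, rfl⟩)) X' hX' (hd'.trans hd) i
  exact ⟨N, hN, (h i).trans h1⟩

lemma gn_tens {𝒳 : Sch k → Prop} {w : ℤ} {M : T.C} (h : Gn T 𝒳 w M) :
    Tens T.L (T.From 𝒳) M := by
  obtain ⟨N, hN, h1⟩ := h
  refine .retract h1 ?_
  clear h1
  induction hN with
  | zero h' => exact .zero h'
  | sum _ _ ih1 ih2 => exact .sum ih1 ih2
  | of h' =>
    obtain ⟨X, hX, w, n, s, rfl⟩ := h'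
    refine .tensor ?_ (.tate s)
    rcases hX with hX | rfl
    · exact .of ⟨X, hX, w, n, rfl⟩
    · by_cases h : w ≠ 0 ∨ n ≠ 0
      · exact .zero (hT.point_zero w n h)
      · push Not at h
        obtain ⟨rfl, rfl⟩ := h
        obtain ⟨e⟩ := hT.point
        obtain ⟨e'⟩ := hT.tate_zero
        exact .retract (Summand.of_iso ⟨e ≪≫ e'.symm⟩) (.tate 0)

/-- All pieces for the schemes of dimension at most two, and for the cubic hypersurfaces. -/
theorem sTwo_all [CharZero k] (hk : Hironaka k) (hH : Hironaka K) :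
    (∀ X : Sch k, SchemesUpTo 2 X → AllPieces T.V (STwo T) X) ∧
      ∀ X : Sch k, CubicsUpTo 4 X → AllPieces T.V (STwo T) X := by
  have hcl := sTwo_class hT hH
  have h0 : STwo T 0 (T.L 0) := by
    obtain ⟨Y, hY, hdY, h1⟩ := tate_curve hT hH 0
    refine ⟨fun u hu => ?_, fun u hu => absurd hu (by omega)⟩
    have : u = 0 := by omega
    subst this
    exact ⟨Y, hY, hdY, h1⟩
  have h1 := graded_iff hT.pieces hcl (point_pieces hT hcl h0) hk 2
  have h2 : ∀ X : Sch k, IsSmProj X → topologicalKrullDim X.left ≤ (2 : ℕ) →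
      ∀ i : ℤ, STwo T i (T.V i i X) := class_down hT hcl fun Y hY hd n => sTwo_smProj hT hH hY hd n
  refine ⟨fun X hX => h1.1.mp h2 X hX.1 hX.2, ?_⟩
  rintro X ⟨a, b, c, S, h, rfl⟩
  exact h1.2.mp h2 a b c S h

theorem sOne_all [CharZero k] (hk : Hironaka k) (hH : Hironaka K) :
    (∀ X : Sch k, SchemesUpTo 1 X → AllPieces T.V (SOne T) X) ∧
      ∀ X : Sch k, CubicsUpTo 3 X → AllPieces T.V (SOne T) X := by
  have hcl := sOne_class hT hH
  have h0 : SOne T 0 (T.L 0) := by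
    refine ⟨fun u hu => ?_, fun u hu => absurd hu (by omega)⟩
    have : u = 0 := by omega
    subst this
    exact ⟨_, .of rfl, Summand.refl _⟩
  have h1 := graded_iff hT.pieces hcl (point_pieces hT hcl h0) hk 1
  have h2 : ∀ X : Sch k, IsSmProj X → topologicalKrullDim X.left ≤ (1 : ℕ) →
      ∀ i : ℤ, SOne T i (T.V i i X) := class_down hT hcl fun Y hY hd n => sOne_smProj hT hH hY hd n
  refine ⟨fun X hX => h1.1.mp h2 X hX.1 hX.2, ?_⟩
  rintro X ⟨a, b, c, S, h, rfl⟩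
  exact h1.2.mp h2 a b c S h

end Pool.Agent.V5helper94.TM
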