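import Pool.Agent.V5helper94.TM.Geo

/-!
# The Mumford-Tate conjecture for the second cohomology and for abelian varieties
-/

set_option autoImplicit false
set_option linter.unusedSectionVars false

open CategoryTheory CategoryTheory.Limits AlgebraicGeometry MonoidalCategory
  Pool.Agent.Y116.UV Pool.Agent.V5helper77.GW

open scoped ZeroObject

namespace Pool.Agent.V5helper94.TM

variable {k K : Type} [Field k] [Field K] {ℓ : ℕ} [Fact ℓ.Prime] {T : Motives k K ℓ}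

lemma mt_summand {M N : T.C} (h : Summand M N) (hN : T.MumfordTate N) : T.MumfordTate M :=
  fun _ hP => hN _ (Tens.one h hP)

/-- The conjecture for the finite direct sums of motives of the class `P`, in terms of the tensor
category generated by them. -/
lemma mt_sums_iff (P : T.C → Prop) : (∀ M, Sums P M → T.MumfordTate M) ↔
    ∀ N, Tens T.L P N → T.Semisimple N ∧ T.TateIsHodge N := by
  constructor
  · intro h N hN
    obtain ⟨M, hM, h1⟩ := hN.finite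
    exact h M hM N h1
  · intro h M hM N hN
    exact h N (hN.trans fun x hx => by rw [hx]; exact hM.tens)

variable (hT : IsTheory T)

include hT

lemma mix_sTwo {w : ℤ} {M : T.C} (h : STwo T w M) : Mix T M := by
  rcases Int.even_or_odd' w with ⟨v, hv | hv⟩
  · obtain ⟨Y, hY, -, h1⟩ := h.1 v hv
    exact mix_ev ⟨Y, hY, .retract h1 (.tensor (.of rfl) (.tate _))⟩
  · obtain ⟨A, hA, h1⟩ := h.2 v hv
    exact mix_od ⟨T.L v, A, ⟨A, hA.1, .tate v⟩, hA.1, h1.trans (Summand.of_iso ⟨β_ _ _⟩)⟩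

lemma mix_low {M : T.C} (h : T.LowDegree M) : Mix T M := by
  obtain ⟨X, hX, r, rfl | rfl⟩ := h
  · exact mix_od ⟨T.L r, X, ⟨X, hX, .tate r⟩, hX, Summand.of_iso ⟨β_ _ _⟩⟩
  · exact mix_ev ⟨X, hX, .tensor (.of rfl) (.tate _)⟩

lemma mt_of_mix (hH : Hironaka K) (hM : ∀ X, IsSmProj X → T.MumfordTate (T.H 2 X))
    {P : T.C → Prop} (hP : ∀ M, P M → Mix T M) : ∀ M, Sums P M → T.MumfordTate M := by
  obtain ⟨Z, hZ⟩ := exists_smProj hH
  rw [mt_sums_iff]
  exact fun N hN => mix_good hT hM (mix_tens hT hZ hP hN)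

lemma two_surfaces : (∀ X, IsSmProj X → T.MumfordTate (T.H 2 X)) ↔
    ∀ X, SmProjUpTo 2 X → T.MumfordTate (T.H 2 X) := by
  refine ⟨fun h X hX => h X hX.1, fun h X hX => ?_⟩
  obtain ⟨Y, hY, hd, h1⟩ := hT.lefschetz X 2 hX (by norm_num)
  exact mt_summand (h1 2 (by norm_num)) (h Y ⟨hY, hd⟩)

lemma two_low (hH : Hironaka K) : (∀ X, IsSmProj X → T.MumfordTate (T.H 2 X)) ↔
    ∀ M, Sums T.LowDegree M → T.MumfordTate M := by
  refine ⟨fun h => mt_of_mix hT hH h fun M => mix_low hT, fun h X hX => ?_⟩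
  exact mt_summand (Summand.of_iso' (tw_zero hT _)) (h _ (.of ⟨X, hX, 0, Or.inr rfl⟩))

lemma two_schemes [CharZero k] (hk : Hironaka k) (hH : Hironaka K) :
    (∀ X, IsSmProj X → T.MumfordTate (T.H 2 X)) ↔ T.MumfordTateFor (SchemesUpTo 2) := by
  constructor
  · refine fun h => mt_of_mix hT hH h ?_
    rintro M ⟨X, hX, w, n, rfl⟩
    exact mix_sTwo hT ((sTwo_all hT hk hH).1 X hX w n)
  · intro h
    rw [two_surfaces hT]
    intro X hX
    obtain ⟨X', hX', hd', h1⟩ := hT.descent X hX.1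
    exact mt_summand (h1 2) (h _ (.of ⟨X', ⟨ft_of_smProj hX', hd'.trans hX.2⟩, 2, 2, rfl⟩))

lemma two_cubics [CharZero k] (hk : Hironaka k) (hH : Hironaka K) :
    (∀ X, IsSmProj X → T.MumfordTate (T.H 2 X)) ↔ T.MumfordTateFor (CubicsUpTo 4) := by
  constructor
  · refine fun h => mt_of_mix hT hH h ?_
    rintro M ⟨X, hX, w, n, rfl⟩
    exact mix_sTwo hT ((sTwo_all hT hk hH).2 X hX w n)
  · intro h
    rw [two_surfaces hT]
    intro X hX N hN
    have h1 := gn_tens hT (gn_cubics hT hk 2 hX.1 hX.2 2)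
    exact (mt_sums_iff _).1 h N (hN.trans fun x hx => by rw [hx]; exact h1)

lemma two_pieces [CharZero k] (hk : Hironaka k) (hH : Hironaka K) {X : Sch k}
    (hX : SchemesUpTo 2 X ∨ CubicsUpTo 4 X) (v n : ℤ) :
    (∃ Y, SmProjUpTo 2 Y ∧ Summand (T.V (2 * v) n X) (T.H 2 Y ⊗ T.L (v - 1))) ∧
      ∃ A, IsAbVar A ∧ Summand (T.V (2 * v + 1) n X) (T.H 1 A ⊗ T.L v) := by
  have h1 : AllPieces T.V (STwo T) X := by
    rcases hX with hX | hX
    · exact (sTwo_all hT hk hH).1 X hX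
    · exact (sTwo_all hT hk hH).2 X hX
  obtain ⟨Y, hY, hd, h2⟩ := (h1 (2 * v) n).1 v rfl
  exact ⟨⟨Y, ⟨hY, hd⟩, h2⟩, (h1 (2 * v + 1) n).2 v rfl⟩

lemma two_gen [CharZero k] (hk : Hironaka k) {X : Sch K} (hX : IsSmProj X) (i : ℤ) (hi : i ≤ 2) :
    ∃ N, Sums (T.Twists (CubicsUpTo 4)) N ∧ Summand (T.H i X) N := by
  obtain ⟨Y, hY, hd, h1⟩ := hT.lefschetz X 2 hX (by norm_num)
  obtain ⟨N, hN, h2⟩ := gn_cubics hT hk 2 hY hd i
  exact ⟨N, hN, (h1 i (by exact_mod_cast hi)).trans h2⟩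

/-! ### Abelian varieties -/

/-- in the tensor category generated by some `H^1(A)` -/
def AbT (T : Motives k K ℓ) (N : T.C) : Prop :=
  ∃ A, IsAbVar A ∧ Tens T.L (fun M => M = T.H 1 A) N

lemma abt_common {N N' : T.C} (h : AbT T N) (h' : AbT T N') : ∃ A, IsAbVar A ∧
    Tens T.L (fun M => M = T.H 1 A) N ∧ Tens T.L (fun M => M = T.H 1 A) N' := by
  obtain ⟨A, hA, h1⟩ := h
  obtain ⟨A', hA', h1'⟩ := h'
  obtain ⟨A'', hA'', h2⟩ := ab_sum hT hA hA'
  exact ⟨A'', hA'', Tens.one ((Summand.inl _ _).trans h2) h1,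
    Tens.one ((Summand.inr _ _).trans h2) h1'⟩

lemma abt_tens {A : Sch K} (hA : IsAbVar A) {P : T.C → Prop} (hP : ∀ M, P M → AbT T M) {N : T.C}
    (h : Tens T.L P N) : AbT T N := by
  induction h with
  | of h' => exact hP _ h'
  | tate r => exact ⟨A, hA, .tate r⟩
  | zero h' => exact ⟨A, hA, .zero h'⟩
  | retract h' _ ih =>
    obtain ⟨A', hA', h1⟩ := ih
    exact ⟨A', hA', .retract h' h1⟩
  | sum _ _ ih1 ih2 =>
    obtain ⟨A', hA', h1, h2⟩ := abt_common hT ih1 ih2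
    exact ⟨A', hA', .sum h1 h2⟩
  | tensor _ _ ih1 ih2 =>
    obtain ⟨A', hA', h1, h2⟩ := abt_common hT ih1 ih2
    exact ⟨A', hA', .tensor h1 h2⟩

lemma abt_sOne {A : Sch K} (hA : IsAbVar A) {w : ℤ} {M : T.C} (h : SOne T w M) : AbT T M := by
  rcases Int.even_or_odd' w with ⟨v, hv | hv⟩
  · obtain ⟨N, hN, h1⟩ := h.1 v hv
    refine ⟨A, hA, .retract h1 (hN.tens.trans ?_)⟩
    rintro _ rfl
    exact .tate v
  · obtain ⟨A, hA, h1⟩ := h.2 v hv
    exact ⟨A, hA, .retract h1 (.tensor (.of rfl) (.tate _))⟩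

lemma one_curves : (∀ A, IsAbVar A → T.MumfordTate (T.H 1 A)) ↔
    ∀ X, SmProjUpTo 1 X → T.MumfordTate (T.H 1 X) := by
  constructor
  · intro h X hX
    obtain ⟨A, hA, e⟩ := hT.albanese X hX.1
    exact mt_summand (Summand.of_iso e) (h A hA)
  · intro h A hA
    obtain ⟨Y, hY, hd, h1⟩ := hT.lefschetz A 1 hA.1 le_rfl
    exact mt_summand (h1 1 (by norm_num)) (h Y ⟨hY, hd⟩)

lemma mt_of_abt (hH : Hironaka K) (hM : ∀ A, IsAbVar A → T.MumfordTate (T.H 1 A))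
    {P : T.C → Prop} (hP : ∀ M, P M → AbT T M) : ∀ M, Sums P M → T.MumfordTate M := by
  obtain ⟨A, hA⟩ := exists_ab hT hH
  rw [mt_sums_iff]
  intro N hN
  obtain ⟨A', hA', h1⟩ := abt_tens hT hA hP hN
  exact hM A' hA' N h1

lemma one_schemes [CharZero k] (hk : Hironaka k) (hH : Hironaka K) :
    (∀ A, IsAbVar A → T.MumfordTate (T.H 1 A)) ↔ T.MumfordTateFor (SchemesUpTo 1) := by
  obtain ⟨A, hA⟩ := exists_ab hT hH
  constructor
  · refine fun h => mt_of_abt hT hH h ?_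
    rintro M ⟨X, hX, w, n, rfl⟩
    exact abt_sOne hT hA ((sOne_all hT hk hH).1 X hX w n)
  · intro h
    rw [one_curves hT]
    intro X hX
    obtain ⟨X', hX', hd', h1⟩ := hT.descent X hX.1
    exact mt_summand (h1 1) (h _ (.of ⟨X', ⟨ft_of_smProj hX', hd'.trans hX.2⟩, 1, 1, rfl⟩))

lemma one_cubics [CharZero k] (hk : Hironaka k) (hH : Hironaka K) :
    (∀ A, IsAbVar A → T.MumfordTate (T.H 1 A)) ↔ T.MumfordTateFor (CubicsUpTo 3) := by
  obtain ⟨A, hA⟩ := exists_ab hT hH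
  constructor
  · refine fun h => mt_of_abt hT hH h ?_
    rintro M ⟨X, hX, w, n, rfl⟩
    exact abt_sOne hT hA ((sOne_all hT hk hH).2 X hX w n)
  · intro h
    rw [one_curves hT]
    intro X hX N hN
    have h1 := gn_tens hT (gn_cubics hT hk 1 hX.1 hX.2 1)
    exact (mt_sums_iff _).1 h N (hN.trans fun x hx => by rw [hx]; exact h1)

lemma one_pieces [CharZero k] (hk : Hironaka k) (hH : Hironaka K) {X : Sch k}
    (hX : SchemesUpTo 1 X ∨ CubicsUpTo 3 X) (v n : ℤ) :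
    (∃ N, Sums (fun M => M = T.L v) N ∧ Summand (T.V (2 * v) n X) N) ∧
      ∃ A, IsAbVar A ∧ Summand (T.V (2 * v + 1) n X) (T.H 1 A ⊗ T.L v) := by
  have h1 : AllPieces T.V (SOne T) X := by
    rcases hX with hX | hX
    · exact (sOne_all hT hk hH).1 X hX
    · exact (sOne_all hT hk hH).2 X hX
  exact ⟨(h1 (2 * v) n).1 v rfl, (h1 (2 * v + 1) n).2 v rfl⟩

lemma one_gen [CharZero k] (hk : Hironaka k) {X : Sch K} (hX : IsSmProj X) :
    ∃ N, Sums (T.Twists (CubicsUpTo 3)) N ∧ Summand (T.H 1 X) N := by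
  obtain ⟨Y, hY, hd, h1⟩ := hT.lefschetz X 1 hX le_rfl
  obtain ⟨N, hN, h2⟩ := gn_cubics hT hk 1 hY hd 1
  exact ⟨N, hN, (h1 1 (by norm_num)).trans h2⟩

end Pool.Agent.V5helper94.TM
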