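import Pool.Agent.V5helper94.TM.Basic

/-!
# Motives of even and of odd weights
-/

set_option autoImplicit false
set_option linter.unusedSectionVars false

open CategoryTheory CategoryTheory.Limits AlgebraicGeometry MonoidalCategory
  Pool.Agent.Y116.UV Pool.Agent.V5helper77.GW

namespace Pool.Agent.V5helper94.TM

section realization

variable {k K : Type} [Field k] [Field K] {ℓ : ℕ} [Fact ℓ.Prime] {T : Motives k K ℓ}

/-- `-1` acts as the sign `ε` -/
def Sgn (T : Motives k K ℓ) (ε : ℝ) (M : T.C) : Prop := T.hodge M (-1) = ε • 1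

variable (hT : IsTheory T)

include hT

lemma sgn_tate (r : ℤ) : Sgn T 1 (T.L r) := by
  unfold Sgn
  rw [hT.hodge_tate]
  simp

lemma sgn_h {X : Sch K} (hX : IsSmProj X) (n : ℤ) : Sgn T ((-1) ^ n) (T.H n X) :=
  hT.hodge_weight n X hX (-1) (-1) (by simp)

lemma sgn_retract {ε : ℝ} {M N : T.C} (h : Summand M N) (hN : Sgn T ε N) : Sgn T ε M := by
  obtain ⟨i, r, h1⟩ := h
  have h2 : T.matR r * T.matR i = 1 := by rw [← matR_comp hT, h1, matR_id hT]
  unfold Sgn at hN ⊢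
  calc T.hodge M (-1) = T.matR r * T.matR i * T.hodge M (-1) := by rw [h2, Matrix.one_mul]
    _ = T.matR r * (T.hodge N (-1) * T.matR i) := by rw [Matrix.mul_assoc, hT.hodge_map]
    _ = ε • (T.matR r * T.matR i) := by rw [hN, Matrix.smul_mul, Matrix.mul_smul, Matrix.one_mul]
    _ = ε • 1 := by rw [h2]

lemma sgn_zero (ε : ℝ) {M : T.C} (h : IsZero M) : Sgn T ε M := by
  have h1 : 𝟙 M = 0 := h.eq_of_src _ _
  have h2 := matR_add hT (0 : M ⟶ M) 0
  rw [add_zero] at h2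
  have h3 : (1 : Matrix (Fin (T.d M)) (Fin (T.d M)) ℝ) = 0 := by
    rw [← matR_id hT M, h1]
    exact left_eq_add.1 h2
  unfold Sgn
  rw [← one_mul (T.hodge M (-1)), h3, zero_mul, smul_zero]

lemma sgn_sum {ε : ℝ} {M N : T.C} (hM : Sgn T ε M) (hN : Sgn T ε N) : Sgn T ε (M ⊞ N) := by
  have h1 : T.matR (biprod.inl : M ⟶ M ⊞ N) * T.matR (biprod.fst : M ⊞ N ⟶ M) +
      T.matR (biprod.inr : N ⟶ M ⊞ N) * T.matR (biprod.snd : M ⊞ N ⟶ N) = 1 := by
    rw [← matR_comp hT, ← matR_comp hT, ← matR_add hT, biprod.total, matR_id hT]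
  unfold Sgn at hM hN ⊢
  have h2 : T.hodge (M ⊞ N) (-1) * T.matR (biprod.inl : M ⟶ M ⊞ N) =
      ε • T.matR (biprod.inl : M ⟶ M ⊞ N) := by
    rw [← hT.hodge_map, hM, Matrix.mul_smul, Matrix.mul_one]
  have h3 : T.hodge (M ⊞ N) (-1) * T.matR (biprod.inr : N ⟶ M ⊞ N) =
      ε • T.matR (biprod.inr : N ⟶ M ⊞ N) := by
    rw [← hT.hodge_map, hN, Matrix.mul_smul, Matrix.mul_one]
  calc T.hodge (M ⊞ N) (-1) = T.hodge (M ⊞ N) (-1) *
        (T.matR (biprod.inl : M ⟶ M ⊞ N) * T.matR (biprod.fst : M ⊞ N ⟶ M) +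
          T.matR (biprod.inr : N ⟶ M ⊞ N) * T.matR (biprod.snd : M ⊞ N ⟶ N)) := by
        rw [h1, Matrix.mul_one]
    _ = ε • (T.matR (biprod.inl : M ⟶ M ⊞ N) * T.matR (biprod.fst : M ⊞ N ⟶ M) +
          T.matR (biprod.inr : N ⟶ M ⊞ N) * T.matR (biprod.snd : M ⊞ N ⟶ N)) := by
        rw [Matrix.mul_add, ← Matrix.mul_assoc, ← Matrix.mul_assoc, h2, h3, Matrix.smul_mul,
          Matrix.smul_mul, smul_add]
    _ = ε • 1 := by rw [h1]

lemma sgn_tensor {ε δ : ℝ} {M N : T.C} (hM : Sgn T ε M) (hN : Sgn T δ N) :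
    Sgn T (ε * δ) (M ⊗ N) := by
  obtain ⟨e, e', h1, h2, he⟩ := hT.hodge_tensor M N
  unfold Sgn at hM hN ⊢
  have h3 : Matrix.kroneckerMap (· * ·) (T.hodge M (-1)) (T.hodge N (-1)) =
      (ε * δ) • (1 : Matrix (Fin (T.d M) × Fin (T.d N)) _ ℝ) := by
    rw [hM, hN]
    ext ⟨i, j⟩ ⟨i', j'⟩
    simp only [Matrix.kroneckerMap_apply, Matrix.smul_apply, Matrix.one_apply, smul_eq_mul,
      Prod.mk.injEq]
    by_cases h4 : i = i' <;> by_cases h5 : j = j' <;> simp [h4, h5]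
  calc T.hodge (M ⊗ N) (-1) = T.hodge (M ⊗ N) (-1) * e * e' := by
        rw [Matrix.mul_assoc, h1, Matrix.mul_one]
    _ = (ε * δ) • (e * e') := by rw [he, h3, Matrix.mul_smul, Matrix.smul_mul, Matrix.mul_one]
    _ = (ε * δ) • 1 := by rw [h1]

lemma sgn_tens {P : T.C → Prop} (hP : ∀ M, P M → Sgn T 1 M) {N : T.C} (h : Tens T.L P N) :
    Sgn T 1 N := by
  induction h with
  | of h' => exact hP _ h'
  | tate r => exact sgn_tate hT r
  | zero h' => exact sgn_zero hT _ h'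
  | retract h' _ ih => exact sgn_retract hT h' ih
  | sum _ _ ih1 ih2 => exact sgn_sum hT ih1 ih2
  | tensor _ _ ih1 ih2 =>
    have h1 := sgn_tensor hT ih1 ih2
    rwa [one_mul] at h1

/-- Motives of odd weights have no Tate classes and no Hodge classes. -/
theorem th_odd {M : T.C} (h : Sgn T (-1) M) : T.TateIsHodge M := by
  have h0 : T.hodge M (-1) = -1 := by rw [h, neg_smul, one_smul]
  have h1 : ∀ u, T.IsHodge M u → u = 0 := by
    intro u hu
    have h2 := hu (-1)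
    rw [h0, Matrix.neg_mulVec, Matrix.one_mulVec] at h2
    funext i
    have h3 := congrFun h2 i
    simp only [Pi.neg_apply] at h3
    have h4 : (u i : ℝ) = 0 := by linarith
    exact_mod_cast h4
  intro v
  constructor
  · intro hv
    rw [hT.odd M h0 v hv]
    exact Submodule.zero_mem _
  · intro hv
    have h2 : T.HodgeSpan M = ⊥ := by
      rw [Motives.HodgeSpan, Submodule.span_eq_bot]
      rintro _ ⟨u, hu, rfl⟩
      rw [h1 u hu]
      funext i
      exact Rat.cast_zero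
    rw [h2, Submodule.mem_bot] at hv
    rw [hv]
    exact ⟨⊤, fun s _ => Matrix.mulVec_zero _⟩

end realization

end Pool.Agent.V5helper94.TM
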